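import Mathlib
import Pool.Agent.Work.MP_89a3f8.Basic

/-!
# Nef systems with log discrepancies, local volumes and the cone theorem

`DiscSystem` adds to the nef system of a klt pair `(X, Δ)` over `S` the log discrepancies, the
linear series of the big classes, their alpha invariants, the local volumes and the Cartier indices
of the models. `VolSystem` adds the bound for the length of the extremal rays.
-/

set_option autoImplicit false

namespace Pool.Agent.Work.MP_89a3f8_vol

open Set Filter Topology Pool.Agent.Work.MP_89a3f8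

/-- A nef system with log discrepancies, linear series, local volumes and Cartier indices. -/
structure DiscSystem (V : Type) [NormedAddCommGroup V] [NormedSpace ℝ V] extends NefSystem V where
  /-- the dimension of `X` -/
  dim : ℕ
  /-- the group of the classes of Weil divisors (with integral coefficients) -/
  weil : AddSubgroup V
  weil_span : Submodule.span ℝ (weil : Set V) = ⊤
  /-- `ld X' v` is the log discrepancy of `v` with respect to `(X', Δ')` -/
  ld : Model → Val → ℝ
  /-- `(X', Δ')` is klt -/
  ld_pos : ∀ X' v, 0 < ld X' v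
  /-- log discrepancies and the multiplicities of the pull-backs of `K + Δ` -/
  ld_sub : ∀ X' X'' v, ld X'' v - ld X' v = mult X' kappa v - mult X'' kappa v
  /-- for a big class `L` choose a big divisor of class `L`, on a projective compactification of
  `X`; `orders L` is the set of the functions `v ↦ ord_v G` for the effective divisors `G` which are
  `ℝ`-linearly equivalent to it. On `X'` the order of vanishing is `ord_v G + mult X' L v`. -/
  orders : V → Set (Val → ℝ)
  orders_nonempty : ∀ L ∈ interior eff, (orders L).Nonempty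
  /-- the strict transform of `G` on `X'` is effective -/
  orders_nonneg : ∀ L ∈ interior eff, ∀ o ∈ orders L, ∀ X' v, 0 ≤ o v + mult X' L v
  /-- the alpha invariant of the big class `L` on `X'` is positive -/
  alpha_pos : ∀ L ∈ interior eff, ∀ X', ∃ a : ℝ, 0 < a ∧
    ∀ o ∈ orders L, ∀ v, a * (o v + mult X' L v) ≤ ld X' v
  /-- the infimum of the local (normalized) volumes of the points of `(X', Δ')` -/
  lvol : Model → ℝ
  /-- local-to-global inequality: `a` at most the alpha invariant of `L` on `X'`, `w` the volume of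
  the linear series of `L` -/
  local_global : ∀ L ∈ interior eff, ∃ w : ℝ, 0 < w ∧ ∀ X' (a : ℝ), 0 < a →
    (∀ o ∈ orders L, ∀ v, a * (o v + mult X' L v) ≤ ld X' v) → a ^ dim * w ≤ lvol X'
  /-- the least positive integer `m` such that `m D` is Cartier for every Weil divisor `D` of `X'` -/
  index : Model → ℕ
  index_pos : ∀ X', 0 < index X'
  /-- the local index of a Weil divisor is at most `n ^ n / (local volume)` (Xu, Zhuang) -/
  index_dvd : ∀ X', 0 < lvol X' → index X' ∣ (⌊(dim : ℝ) ^ dim / lvol X'⌋₊).factorial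
  /-- the pull-backs of the Cartier divisors `N D'` and `N D''` have integral coefficients -/
  mult_integral : ∀ X' X'' (N : ℕ), index X' ∣ N → index X'' ∣ N → ∀ D ∈ weil, ∀ v,
    ∃ z : ℤ, (N : ℝ) * (mult X'' D v - mult X' D v) = z
  /-- the exceptional prime divisors over `X` -/
  exc : Set Val
  /-- the models are isomorphic in codimension one -/
  mult_of_not_exc : ∀ X' D, ∀ v ∉ exc, mult X' D v = 0
  /-- only finitely many exceptional divisors have log discrepancy at most one -/
  ld_finite : ∀ X', {v ∈ exc | ld X' v ≤ 1}.Finite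

variable {V : Type} [NormedAddCommGroup V] [NormedSpace ℝ V]

/-- `(X', Δ' + t G')` is klt for some effective `G` in the linear series of the big class `L`; or
`t = 0` and the pair is `(X', Δ')`. -/
def DiscSystem.IsKlt (M : DiscSystem V) (X' : M.Model) (t : ℝ) (L : V) : Prop :=
  t = 0 ∨ (0 < t ∧ L ∈ interior M.eff ∧
    ∃ o ∈ M.orders L, ∀ v, t * (o v + M.mult X' L v) < M.ld X' v)

/-- A `DiscSystem` with the cone theorem and the bound for the length of extremal rays. -/
structure VolSystem (V : Type) [NormedAddCommGroup V] [NormedSpace ℝ V] extends DiscSystem V where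
  /-- cone theorem (Kawamata): let `R` span an extremal ray of `X'` of codimension one face of the
  nef cone and be negative on `K + Δ + t G` for some klt `(X', Δ' + t G')`. The shortest rational
  curve in the ray is `c • R`; its intersection numbers with the Weil divisors are multiples of
  `1 / index X'`, and its degree against `-(K + Δ + t G)` is at most `2 n` for all klt pairs. -/
  length_bound : ∀ (X' : Model) (R : V →ₗ[ℝ] ℝ), R ≠ 0 → (∀ D ∈ nef X', 0 ≤ R D) →
    Submodule.span ℝ (nef X' ∩ (LinearMap.ker R : Set V)) = LinearMap.ker R →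
    (∃ t L, toDiscSystem.IsKlt X' t L ∧ R (kappa + t • L) < 0) →
    ∃ c : ℝ, 0 < c ∧ (∀ D ∈ weil, ∃ z : ℤ, (index X' : ℝ) * (c * R D) = z) ∧
      ∀ t L, toDiscSystem.IsKlt X' t L → R (kappa + t • L) < 0 →
        -(c * R (kappa + t • L)) ≤ 2 * dim

/-- The cone `Kc X j`: the classes whose pull-backs grow along the tail `X j, X (j+1), …` at most as
a multiple of the log discrepancies. -/
def Kc (M : NefSystem V) (X : ℕ → M.Model) (j : ℕ) : Set V :=
  {D | ∃ C : ℝ, 0 ≤ C ∧ ∀ k, j ≤ k → ∀ v, M.mult (X k) D v - M.mult (X j) D v ≤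
    C * (M.mult (X j) M.kappa v - M.mult (X k) M.kappa v)}

section Kc

variable (M : NefSystem V) {X : ℕ → M.Model} {R : ℕ → V →ₗ[ℝ] ℝ}

theorem kappa_mono (h : M.IsFlipSequence X R) {j k : ℕ} (hjk : j ≤ k) (v : M.Val) :
    M.mult (X k) M.kappa v ≤ M.mult (X j) M.kappa v :=
  (M.seq_mult_strictAnti h).antitone hjk v

theorem Kc_add (j : ℕ) {a b : V} (ha : a ∈ Kc M X j) (hb : b ∈ Kc M X j) :
    a + b ∈ Kc M X j := by
  obtain ⟨C, hC, h1⟩ := ha
  obtain ⟨C', hC', h2⟩ := hb
  refine ⟨C + C', by positivity, fun k hk v => ?_⟩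
  have e1 := h1 k hk v
  have e2 := h2 k hk v
  rw [map_add, map_add]
  simp only [Pi.add_apply]
  linarith

theorem Kc_smul (j : ℕ) {t : ℝ} (ht : 0 ≤ t) {a : V} (ha : a ∈ Kc M X j) :
    t • a ∈ Kc M X j := by
  obtain ⟨C, hC, h1⟩ := ha
  refine ⟨t * C, by positivity, fun k hk v => ?_⟩
  have e1 := mul_le_mul_of_nonneg_left (h1 k hk v) ht
  rw [map_smul, map_smul]
  simp only [Pi.smul_apply, smul_eq_mul]
  linarith

theorem Kc_convex (j : ℕ) : Convex ℝ (Kc M X j) := by
  intro a ha b hb s t hs ht _
  exact Kc_add M j (Kc_smul M j hs ha) (Kc_smul M j ht hb)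

theorem Kc_kappa (h : M.IsFlipSequence X R) (j : ℕ) : M.kappa ∈ Kc M X j := by
  refine ⟨0, le_rfl, fun k hk v => ?_⟩
  have := kappa_mono M h hk v
  linarith

theorem Kc_neg_kappa (j : ℕ) : -M.kappa ∈ Kc M X j := by
  refine ⟨1, zero_le_one, fun k _ v => ?_⟩
  rw [map_neg, map_neg]
  simp only [Pi.neg_apply]
  linarith

theorem Kc_neg_nef (j : ℕ) {D : V} (hD : D ∈ M.nef (X j)) : -D ∈ Kc M X j := by
  refine ⟨0, le_rfl, fun k _ v => ?_⟩
  have := M.negativity (X j) (X k) D hD v
  rw [map_neg, map_neg]
  simp only [Pi.neg_apply]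
  linarith

/-- the change of the multiplicities along the sequence, on a class which is nonpositive on the
flipping rays -/
theorem mult_le_of_nonpos (h : M.IsFlipSequence X R) {j : ℕ} {D : V}
    (hD : ∀ i, j ≤ i → R i D ≤ 0) {k : ℕ} (hk : j ≤ k) (v : M.Val) :
    M.mult (X k) D v ≤ M.mult (X j) D v := by
  induction k, hk using Nat.le_induction with
  | base => exact le_rfl
  | succ k hk ih =>
    obtain ⟨e, he0, -, he⟩ := M.flip_mult (h k)
    rw [he D]
    simp only [Pi.add_apply, Pi.smul_apply, smul_eq_mul]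
    have h1 : 0 ≤ e v := he0 v
    have h2 := mul_nonpos_of_nonpos_of_nonneg (hD k hk) h1
    linarith

theorem Kc_of_nonpos (h : M.IsFlipSequence X R) {j : ℕ} {D : V}
    (hD : ∀ i, j ≤ i → R i D ≤ 0) : D ∈ Kc M X j := by
  refine ⟨0, le_rfl, fun k hk v => ?_⟩
  have := mult_le_of_nonpos M h hD hk v
  linarith

/-- On a finite piece of the sequence every class is controlled by the log discrepancies. -/
theorem finite_piece (h : M.IsFlipSequence X R) (j : ℕ) (D : V) (k₁ : ℕ) :
    ∃ C : ℝ, 0 ≤ C ∧ ∀ k, j ≤ k → k ≤ k₁ → ∀ v, M.mult (X k) D v - M.mult (X j) D v ≤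
      C * (M.mult (X j) M.kappa v - M.mult (X k) M.kappa v) := by
  induction k₁ with
  | zero =>
    refine ⟨0, le_rfl, fun k hk hk' v => ?_⟩
    have h1 : k = 0 := Nat.le_zero.1 hk'
    have h2 : j = 0 := by omega
    rw [h1, h2]
    simp
  | succ k₁ ih =>
    obtain ⟨C, hC, hb⟩ := ih
    obtain ⟨e, he0, -, he⟩ := M.flip_mult (h k₁)
    have hk := (h k₁).2.2.2
    set c : ℝ := |R k₁ D| / (-R k₁ M.kappa) with hc
    have hkpos : 0 < -R k₁ M.kappa := by linarith
    have hc0 : 0 ≤ c := div_nonneg (abs_nonneg _) hkpos.le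
    refine ⟨C + c, by positivity, fun k hk1 hk2 v => ?_⟩
    have hmono := kappa_mono M h hk1 v
    rcases Nat.lt_or_ge k (k₁ + 1) with hlt | hge
    · have e1 := hb k hk1 (Nat.lt_succ_iff.1 hlt) v
      have e2 : 0 ≤ c * (M.mult (X j) M.kappa v - M.mult (X k) M.kappa v) :=
        mul_nonneg hc0 (by linarith)
      linarith
    · have hkk : k = k₁ + 1 := le_antisymm hk2 hge
      subst hkk
      rcases Nat.eq_or_lt_of_le hk1 with heq | hlt
      · rw [heq]
        simp
      · have e1 := hb k₁ (Nat.lt_succ_iff.1 hlt) le_rfl v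
        have hmono' := kappa_mono M h (Nat.lt_succ_iff.1 hlt) v
        rw [he D, he M.kappa]
        simp only [Pi.add_apply, Pi.smul_apply, smul_eq_mul]
        have h1 : 0 ≤ e v := he0 v
        have h2 : R k₁ D * e v ≤ c * (-R k₁ M.kappa) * e v := by
          apply mul_le_mul_of_nonneg_right _ h1
          rw [hc, div_mul_cancel₀ _ hkpos.ne']
          exact le_abs_self _
        have h3 : 0 ≤ C * (-R k₁ M.kappa * e v) :=
          mul_nonneg hC (mul_nonneg hkpos.le h1)
        have h4 : 0 ≤ c * (M.mult (X j) M.kappa v - M.mult (X k₁) M.kappa v) :=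
          mul_nonneg hc0 (by linarith)
        nlinarith
end Kc

end Pool.Agent.Work.MP_89a3f8_vol
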