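import Mathlib
import Pool.Agent.Work.MP_89a3f8_vol.System

/-!
# Local volumes, indices and lengths along the tail of a sequence of flips
-/

set_option autoImplicit false

namespace Pool.Agent.Work.MP_89a3f8_vol

open Set Filter Topology Pool.Agent.Work.MP_89a3f8

variable {V : Type} [NormedAddCommGroup V] [NormedSpace ℝ V]

section tail

variable (M : DiscSystem V) {X : ℕ → M.Model} {R : ℕ → V →ₗ[ℝ] ℝ}

/-- The alpha invariants of a big class in `Kc X j` are bounded below along the tail. -/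
theorem alpha_tail (h : M.IsFlipSequence X R) {j : ℕ} {L : V} (hL : L ∈ interior M.eff)
    (hK : L ∈ Kc M.toNefSystem X j) : ∃ a : ℝ, 0 < a ∧ ∀ k, j ≤ k → ∀ o ∈ M.orders L, ∀ v,
      a * (o v + M.mult (X k) L v) ≤ M.ld (X k) v := by
  obtain ⟨a, ha, hal⟩ := M.alpha_pos L hL (X j)
  obtain ⟨C, hC, hCb⟩ := hK
  have hden : 0 < 1 / a + C := by positivity
  refine ⟨1 / (1 / a + C), by positivity, fun k hk o ho v => ?_⟩
  have h1 := hal o ho v
  have h2 := hCb k hk v
  have h3 := M.ld_sub (X j) (X k) v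
  have h4 := kappa_mono M.toNefSystem h hk v
  have h5 : o v + M.mult (X j) L v ≤ M.ld (X j) v / a := by
    rw [le_div_iff₀ ha]
    linarith
  have h6 : M.ld (X j) v ≤ M.ld (X k) v := by linarith
  have hldj := M.ld_pos (X j) v
  have h7 : M.ld (X j) v / a ≤ M.ld (X k) v / a := div_le_div_of_nonneg_right h6 ha.le
  have h8 : C * (M.mult (X j) M.kappa v - M.mult (X k) M.kappa v) ≤ C * M.ld (X k) v := by
    apply mul_le_mul_of_nonneg_left _ hC
    linarith
  have h9 : o v + M.mult (X k) L v ≤ (1 / a + C) * M.ld (X k) v := by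
    have e : (1 / a + C) * M.ld (X k) v = M.ld (X k) v / a + C * M.ld (X k) v := by ring
    rw [e]
    linarith
  rw [one_div, inv_mul_le_iff₀ hden]
  exact h9

/-- The local volumes are bounded below along the tail. -/
theorem lvol_tail (h : M.IsFlipSequence X R) {j : ℕ} {L : V} (hL : L ∈ interior M.eff)
    (hK : L ∈ Kc M.toNefSystem X j) : ∃ ε : ℝ, 0 < ε ∧ ∀ k, j ≤ k → ε ≤ M.lvol (X k) := by
  obtain ⟨a, ha, hal⟩ := alpha_tail M h hL hK
  obtain ⟨w, hw, hwl⟩ := M.local_global L hL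
  exact ⟨a ^ M.dim * w, by positivity, fun k hk => hwl (X k) a ha (hal k hk)⟩

/-- The Cartier indices are bounded along the tail. -/
theorem index_tail (h : M.IsFlipSequence X R) {j : ℕ} {L : V} (hL : L ∈ interior M.eff)
    (hK : L ∈ Kc M.toNefSystem X j) : ∃ N : ℕ, 0 < N ∧ ∀ k, j ≤ k → M.index (X k) ∣ N := by
  obtain ⟨ε, hε, hb⟩ := lvol_tail M h hL hK
  refine ⟨(⌊(M.dim : ℝ) ^ M.dim / ε⌋₊).factorial, Nat.factorial_pos _, fun k hk => ?_⟩
  have h1 := hb k hk
  refine (M.index_dvd (X k) (hε.trans_le h1)).trans (Nat.factorial_dvd_factorial ?_)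
  apply Nat.floor_le_floor
  exact div_le_div_of_nonneg_left (by positivity) hε h1

/-- The pairs `(X k, Δ + t G)` are klt for small `t`, uniformly along the tail. -/
theorem klt_tail (h : M.IsFlipSequence X R) {j : ℕ} {L : V} (hL : L ∈ interior M.eff)
    (hK : L ∈ Kc M.toNefSystem X j) :
    ∀ᶠ t in 𝓝[>] (0 : ℝ), ∀ k, j ≤ k → M.IsKlt (X k) t L := by
  obtain ⟨a, ha, hal⟩ := alpha_tail M h hL hK
  have h1 : ∀ᶠ t in 𝓝[>] (0 : ℝ), t < a := by
    apply mem_nhdsWithin_of_mem_nhds
    exact Iio_mem_nhds ha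
  filter_upwards [h1, self_mem_nhdsWithin] with t ht ht0 k hk
  have ht0' : 0 < t := ht0
  right
  obtain ⟨o, ho⟩ := M.orders_nonempty L hL
  refine ⟨ht0', hL, o, ho, fun v => ?_⟩
  have h2 := hal k hk o ho v
  have h3 := M.orders_nonneg L hL o ho (X k) v
  have h4 := M.ld_pos (X k) v
  rcases h3.eq_or_lt with h5 | h5
  · rw [← h5, mul_zero]; exact h4
  · have := mul_lt_mul_of_pos_right ht h5
    linarith

end tail

section forms

variable {W : Type} [AddCommGroup W] [Module ℝ W]

/-- a bound on a spanning set gives a bound everywhere -/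
theorem bound_of_span {T : Set W} (hT : Submodule.span ℝ T = ⊤) (B : ℝ) (w : W) :
    ∃ b : ℝ, ∀ f : W →ₗ[ℝ] ℝ, (∀ x ∈ T, |f x| ≤ B) → |f w| ≤ b := by
  have hw : w ∈ Submodule.span ℝ T := by rw [hT]; exact Submodule.mem_top
  induction hw using Submodule.span_induction with
  | mem x hx => exact ⟨B, fun f hf => hf x hx⟩
  | zero => exact ⟨0, fun f _ => by rw [map_zero, abs_zero]⟩
  | add x y _ _ hx hy =>
    obtain ⟨b1, h1⟩ := hx
    obtain ⟨b2, h2⟩ := hy
    refine ⟨b1 + b2, fun f hf => ?_⟩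
    rw [map_add]
    exact (abs_add_le _ _).trans (add_le_add (h1 f hf) (h2 f hf))
  | smul c x _ hx =>
    obtain ⟨b1, h1⟩ := hx
    refine ⟨|c| * b1, fun f hf => ?_⟩
    rw [map_smul, smul_eq_mul, abs_mul]
    exact mul_le_mul_of_nonneg_left (h1 f hf) (abs_nonneg _)

theorem finite_multiples (N : ℕ) (hN : 0 < N) (b : ℝ) :
    {y : ℝ | |y| ≤ b ∧ ∃ z : ℤ, (N : ℝ) * y = z}.Finite := by
  have hN' : (0 : ℝ) < N := by exact_mod_cast hN
  refine ((Set.finite_Icc (-⌈(N : ℝ) * b⌉) ⌈(N : ℝ) * b⌉).image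
    (fun z : ℤ => (z : ℝ) / N)).subset ?_
  rintro y ⟨hy, z, hz⟩
  refine ⟨z, ?_, ?_⟩
  · have h1 : |(z : ℝ)| ≤ (N : ℝ) * b := by
      rw [← hz, abs_mul, abs_of_pos hN']
      exact mul_le_mul_of_nonneg_left hy hN'.le
    have h2 := Int.le_ceil ((N : ℝ) * b)
    rw [abs_le] at h1
    constructor
    · have h3 : ((-⌈(N : ℝ) * b⌉ : ℤ) : ℝ) ≤ z := by
        push_cast
        linarith [h1.1]
      exact_mod_cast h3
    · have h3 : (z : ℝ) ≤ (⌈(N : ℝ) * b⌉ : ℤ) := h1.2.trans h2
      exact_mod_cast h3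
  · simp only
    rw [← hz]
    field_simp

/-- Linear forms which are bounded on a spanning set and have values in `(1/N) ℤ` on a spanning set:
there are finitely many. -/
theorem finite_forms [FiniteDimensional ℝ W] {T S : Set W} (hT : Submodule.span ℝ T = ⊤)
    (hS : Submodule.span ℝ S = ⊤) (B : ℝ) (N : ℕ) (hN : 0 < N) :
    {f : W →ₗ[ℝ] ℝ | (∀ x ∈ T, |f x| ≤ B) ∧ ∀ x ∈ S, ∃ z : ℤ, (N : ℝ) * f x = z}.Finite := by
  obtain ⟨S', hS'S, hS'⟩ := (Submodule.fg_span_iff_fg_span_finset_subset S).1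
    (by rw [hS]; exact Module.Finite.fg_top)
  rw [hS] at hS'
  choose b hb using bound_of_span hT B
  set F : (W →ₗ[ℝ] ℝ) → (S' → ℝ) := fun f s => f s with hF
  have hinj : Function.Injective F := by
    intro f g hfg
    apply LinearMap.ext_on hS'.symm
    intro s hs
    exact congrFun hfg ⟨s, hs⟩
  have hfin : (Set.pi Set.univ fun s : S' =>
      {y : ℝ | |y| ≤ b s ∧ ∃ z : ℤ, (N : ℝ) * y = z}).Finite :=
    Set.Finite.pi fun s => finite_multiples N hN (b s)
  refine (hfin.preimage hinj.injOn).subset ?_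
  rintro f ⟨hf1, hf2⟩
  intro s _
  exact ⟨hb s f hf1, hf2 s (hS'S s.2)⟩

end forms

/-- a finite set of reals has a least positive element -/
theorem exists_pos_le (S : Set ℝ) (hS : S.Finite) : ∃ e : ℝ, 0 < e ∧ ∀ x ∈ S, 0 < x → e ≤ x := by
  have h1 : ∀ x ∈ S, ∀ᶠ e in 𝓝[>] (0 : ℝ), 0 < x → e ≤ x := by
    intro x _
    by_cases hx : 0 < x
    · have : ∀ᶠ e in 𝓝[>] (0 : ℝ), e < x := mem_nhdsWithin_of_mem_nhds (Iio_mem_nhds hx)
      filter_upwards [this] with e he _ using he.le
    · exact Eventually.of_forall fun e hx' => absurd hx' hx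
  have h2 := (Filter.eventually_all_finite hS).2 h1
  obtain ⟨e, he1, he2⟩ := (h2.and self_mem_nhdsWithin).exists
  exact ⟨e, he2, he1⟩

theorem mem_multiple {M N : ℕ} (h : M ∣ N) {y : ℝ} (hy : ∃ z : ℤ, (M : ℝ) * y = z) :
    ∃ z : ℤ, (N : ℝ) * y = z := by
  obtain ⟨q, rfl⟩ := h
  obtain ⟨z, hz⟩ := hy
  refine ⟨q * z, ?_⟩
  push_cast
  rw [← hz]
  ring

/-- **Finiteness of the classes of the flipping curves.** If big classes in `Kc X j` span, then the
flips of the tail have finitely many classes. -/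
theorem finite_classes (M : VolSystem V) {X : ℕ → M.Model} {R : ℕ → V →ₗ[ℝ] ℝ}
    (h : M.IsFlipSequence X R) (j : ℕ) {W : Type} [AddCommGroup W] [Module ℝ W]
    [FiniteDimensional ℝ W] (ι : W →ₗ[ℝ] V) (kW : W) (hkW : ι kW = M.kappa)
    (hweil : Submodule.span ℝ {w : W | ι w ∈ M.weil} = ⊤)
    (hL : Submodule.span ℝ {w : W | ι w ∈ interior M.eff ∧ ι w ∈ Kc M.toNefSystem X j} = ⊤)
    {L₀ : V} (hL₀ : L₀ ∈ interior M.eff) (hL₀' : L₀ ∈ Kc M.toNefSystem X j) :
    ∃ Φ : Set (W →ₗ[ℝ] ℝ), Φ.Finite ∧ ∀ k, j ≤ k → ∃ c : ℝ, 0 < c ∧ c • (R k).comp ι ∈ Φ := by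
  obtain ⟨N, hN, hNdvd⟩ := index_tail M.toDiscSystem h hL₀ hL₀'
  obtain ⟨T, hTS, hT⟩ := (Submodule.fg_span_iff_fg_span_finset_subset _).1
    (by rw [hL]; exact Module.Finite.fg_top)
  rw [hL] at hT
  -- a common `t`
  obtain ⟨t, htklt, ht0⟩ : ∃ t : ℝ, (∀ w ∈ T, ∀ k, j ≤ k → M.IsKlt (X k) t (ι w)) ∧ 0 < t := by
    have h1 : ∀ w ∈ T, ∀ᶠ t in 𝓝[>] (0 : ℝ), ∀ k, j ≤ k → M.IsKlt (X k) t (ι w) :=
      fun w hw => klt_tail M.toDiscSystem h (hTS hw).1 (hTS hw).2
    have h2 := (Finset.eventually_all T).2 h1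
    exact (h2.and self_mem_nhdsWithin).exists
  set n : ℝ := (M.dim : ℝ) with hn
  have hn0 : 0 ≤ n := Nat.cast_nonneg _
  set S : Set W := {w : W | ι w ∈ M.weil} with hS
  -- the finite set for the first comparison
  set Φ₁ : Set (W →ₗ[ℝ] ℝ) := {f | (∀ x ∈ (T : Set W), |f x| ≤ 4 * n / t) ∧
    ∀ x ∈ S, ∃ z : ℤ, (N : ℝ) * f x = z} with hΦ₁
  have hΦ₁fin : Φ₁.Finite := finite_forms hT.symm hweil _ N hN
  obtain ⟨e₀, he₀, he₀'⟩ := exists_pos_le ((fun f : W →ₗ[ℝ] ℝ => -f kW) '' Φ₁)
    (hΦ₁fin.image _)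
  set Q : ℝ := max 1 (2 * n / e₀) with hQ
  have hQ1 : 1 ≤ Q := le_max_left _ _
  set Φ : Set (W →ₗ[ℝ] ℝ) := {f | (∀ x ∈ (T : Set W), |f x| ≤ (2 * n * Q + 2 * n) / t) ∧
    ∀ x ∈ S, ∃ z : ℤ, (N : ℝ) * f x = z} with hΦ
  refine ⟨Φ, finite_forms hT.symm hweil _ N hN, fun k hk => ?_⟩
  obtain ⟨hspan, hpos, hneg, hRk⟩ := h k
  have hR0 : R k ≠ 0 := M.R_ne_zero (h k)
  -- the flipping curve
  obtain ⟨c, hc, hcint, hclen⟩ := M.length_bound (X k) (R k) hR0 hpos
    (by
      apply le_antisymm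
      · rw [Submodule.span_le]
        exact inter_subset_right
      · refine hspan.ge.trans (Submodule.span_mono ?_)
        rintro D ⟨hD1, hD2⟩
        refine ⟨hD1, ?_⟩
        rw [SetLike.mem_coe, LinearMap.mem_ker]
        exact le_antisymm (hneg D hD2) (hpos D hD1))
    ⟨0, 0, Or.inl rfl, by rw [smul_zero, add_zero]; exact hRk⟩
  have hck : -(c * R k M.kappa) ≤ 2 * n := by
    have := hclen 0 0 (Or.inl rfl) (by rw [smul_zero, add_zero]; exact hRk)
    rwa [smul_zero, add_zero] at this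
  have hckpos : 0 < -(c * R k M.kappa) := by
    have := mul_neg_of_pos_of_neg hc hRk
    linarith
  have happ : ∀ D : V, R k (M.kappa + t • D) = R k M.kappa + t * R k D := by
    intro D
    rw [map_add, map_smul, smul_eq_mul]
  -- estimates for the flipping curve
  have hlow : ∀ w ∈ T, -(2 * n / t) ≤ c * R k (ι w) := by
    intro w hw
    rcases lt_or_ge (R k (M.kappa + t • ι w)) 0 with hlt | hge
    · have h1 := hclen t (ι w) (htklt w hw k hk) hlt
      rw [happ] at h1
      rw [neg_le, ← sub_nonneg]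
      have h2 : 0 ≤ (2 * n + t * (c * R k (ι w))) / t := by
        apply div_nonneg _ ht0.le
        nlinarith
      have h3 : 2 * n / t - -(c * R k (ι w)) = (2 * n + t * (c * R k (ι w))) / t := by
        field_simp
        ring
      rw [h3]
      exact h2
    · rw [happ] at hge
      have h1 : 0 < R k (ι w) := by
        by_contra hcon
        push Not at hcon
        nlinarith
      have h2 : 0 < c * R k (ι w) := mul_pos hc h1
      have h3 : 0 ≤ 2 * n / t := by positivity
      linarith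
  have hupp : ∀ w ∈ T, R k (M.kappa + t • ι w) ≤ 0 → c * R k (ι w) ≤ 2 * n / t := by
    intro w hw hle
    rw [happ] at hle
    rw [le_div_iff₀ ht0]
    nlinarith
  have hint : ∀ x ∈ S, ∃ z : ℤ, (N : ℝ) * (c • (R k).comp ι) x = z := by
    intro x hx
    exact mem_multiple (hNdvd k hk) (hcint (ι x) hx)
  have h4n : 2 * n / t ≤ (2 * n * Q + 2 * n) / t := by
    apply div_le_div_of_nonneg_right _ ht0.le
    nlinarith
  refine ⟨c, hc, ?_, hint⟩
  intro w hw
  change |c * R k (ι w)| ≤ _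
  have hlw := hlow w hw
  rcases le_or_gt (R k (M.kappa + t • ι w)) 0 with hle | hgt
  · have huw := hupp w hw hle
    rw [abs_le]
    constructor
    · linarith
    · linarith
  -- the flipped curve
  obtain ⟨c', hc', hcint', hclen'⟩ := M.length_bound (X (k + 1)) (-R k) (neg_ne_zero.2 hR0)
    (by
      intro D hD
      have := hneg D hD
      rw [LinearMap.neg_apply]
      linarith)
    (by
      have hker : LinearMap.ker (-R k) = LinearMap.ker (R k) := by
        ext x
        simp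
      rw [hker]
      apply le_antisymm
      · rw [Submodule.span_le]
        exact inter_subset_right
      · refine hspan.ge.trans (Submodule.span_mono ?_)
        rintro D ⟨hD1, hD2⟩
        refine ⟨hD2, ?_⟩
        rw [SetLike.mem_coe, LinearMap.mem_ker]
        exact le_antisymm (hneg D hD2) (hpos D hD1))
    ⟨t, ι w, htklt w hw (k + 1) (by omega), by rw [LinearMap.neg_apply]; linarith⟩
  have hlen' : ∀ x ∈ T, 0 < R k (M.kappa + t • ι x) → c' * R k (M.kappa + t • ι x) ≤ 2 * n := by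
    intro x hx hxpos
    have h1 := hclen' t (ι x) (htklt x hx (k + 1) (by omega)) (by
      rw [LinearMap.neg_apply]; linarith)
    rw [LinearMap.neg_apply] at h1
    linarith
  have hckpos' : 0 < -(c' * R k M.kappa) := by
    have := mul_neg_of_pos_of_neg hc' hRk
    linarith
  -- the quotient `c / c'` is bounded
  have hratio : c ≤ Q * c' := by
    rcases lt_or_ge c c' with hcc | hcc
    · nlinarith
    · -- the form `c' • R k` is in the first finite set
      have hmem : c' • (R k).comp ι ∈ Φ₁ := by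
        refine ⟨?_, ?_⟩
        · intro x hx
          change |c' * R k (ι x)| ≤ _
          have h4 : 2 * n / t ≤ 4 * n / t := by
            apply div_le_div_of_nonneg_right _ ht0.le
            linarith
          rcases le_or_gt (R k (M.kappa + t • ι x)) 0 with hxle | hxgt
          · have e1 := hlow x hx
            have e2 := hupp x hx hxle
            have e3 : |c * R k (ι x)| ≤ 2 * n / t := abs_le.2 ⟨e1, e2⟩
            have e4 : |c' * R k (ι x)| ≤ |c * R k (ι x)| := by
              rw [abs_mul, abs_mul, abs_of_pos hc, abs_of_pos hc']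
              exact mul_le_mul_of_nonneg_right hcc (abs_nonneg _)
            linarith
          · have e1 := hlen' x hx hxgt
            rw [happ] at e1 hxgt
            have e2 : 0 < R k (ι x) := by
              by_contra hcon
              push Not at hcon
              nlinarith
            rw [abs_of_pos (mul_pos hc' e2), le_div_iff₀ ht0]
            have e3 : -(c' * R k M.kappa) ≤ -(c * R k M.kappa) := by nlinarith
            nlinarith
        · intro x hx
          obtain ⟨z, hz⟩ := mem_multiple (hNdvd (k + 1) (by omega)) (hcint' (ι x) hx)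
          refine ⟨-z, ?_⟩
          change (N : ℝ) * (c' * R k (ι x)) = _
          rw [LinearMap.neg_apply] at hz
          push_cast
          linarith
      have h1 : -(c' • (R k).comp ι) kW = -(c' * R k M.kappa) := by
        change -(c' * R k (ι kW)) = _
        rw [hkW]
      have h2 := he₀' _ ⟨_, hmem, rfl⟩ (by
        change 0 < -(c' • (R k).comp ι) kW
        rw [h1]; exact hckpos')
      change e₀ ≤ -(c' • (R k).comp ι) kW at h2
      rw [h1] at h2
      have h3 : 2 * n / e₀ ≤ Q := le_max_right _ _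
      have h5 : 2 * n ≤ Q * e₀ := by
        rw [div_le_iff₀ he₀] at h3
        exact h3
      -- `c (-R κ) ≤ 2 n ≤ Q e₀ ≤ Q c' (-R κ)`
      have h6 : Q * e₀ ≤ Q * (-(c' * R k M.kappa)) :=
        mul_le_mul_of_nonneg_left h2 (by linarith)
      have h7 : c * (-R k M.kappa) ≤ Q * c' * (-R k M.kappa) := by linarith
      exact le_of_mul_le_mul_right h7 (by linarith)
  have h1 := hlen' w hw hgt
  have h2 : c * R k (M.kappa + t • ι w) ≤ Q * (2 * n) := by
    calc c * R k (M.kappa + t • ι w) ≤ Q * c' * R k (M.kappa + t • ι w) :=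
          mul_le_mul_of_nonneg_right hratio hgt.le
      _ = Q * (c' * R k (M.kappa + t • ι w)) := by ring
      _ ≤ Q * (2 * n) := mul_le_mul_of_nonneg_left h1 (by linarith)
  rw [happ] at h2
  rw [abs_le]
  constructor
  · linarith
  · rw [le_div_iff₀ ht0]
    nlinarith

end Pool.Agent.Work.MP_89a3f8_vol
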