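import Mathlib
import Pool.Agent.Work.MP_89a3f8_vol.System

/-!
# Separating the cone `Kc X j` from the big cone
-/

set_option autoImplicit false

namespace Pool.Agent.Work.MP_89a3f8_vol

open Set Filter Topology Pool.Agent.Work.MP_89a3f8

variable {V : Type} [NormedAddCommGroup V] [NormedSpace ℝ V]

theorem eff_convex (M : NefSystem V) : Convex ℝ M.eff := by
  intro a ha b hb s t hs ht _
  exact M.eff_add _ (M.eff_smul s hs a ha) _ (M.eff_smul t ht b hb)

theorem big_nonempty (M : NefSystem V) (X' : M.Model) : (interior M.eff).Nonempty :=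
  (M.ample_nonempty X').mono (interior_mono (M.nef_subset_eff _))

/-- If no big class is in `Kc X j`, a linear form separates. -/
theorem separate (M : NefSystem V) {X : ℕ → M.Model} (j : ℕ)
    (hdisj : Disjoint (interior M.eff) (Kc M X j)) :
    ∃ r : V →L[ℝ] ℝ, ‖r‖ = 1 ∧ (∀ D ∈ M.eff, 0 ≤ r D) ∧ ∀ D ∈ Kc M X j, r D ≤ 0 := by
  obtain ⟨A, hA⟩ := big_nonempty M (X 0)
  obtain ⟨f, u, hf1, hf2⟩ := geometric_hahn_banach_open (eff_convex M).interior isOpen_interior
    (Kc_convex M j) hdisj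
  have h0B : (0 : V) ∈ Kc M X j := by
    refine ⟨0, le_rfl, fun k _ v => ?_⟩
    rw [map_zero, map_zero]
    simp
  have hu0 : u ≤ 0 := by
    have := hf2 0 h0B
    rwa [map_zero] at this
  have hfB : ∀ D ∈ Kc M X j, 0 ≤ f D := by
    intro D hD
    by_contra hcon
    push Not at hcon
    set t : ℝ := (-u + 1) / (-f D) with ht
    have hfD : 0 < -f D := by linarith
    have htpos : 0 < t := div_pos (by linarith) hfD
    have h2 := hf2 _ (Kc_smul M j htpos.le hD)
    rw [map_smul, smul_eq_mul] at h2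
    have h3 : t * (-f D) = -u + 1 := by rw [ht, div_mul_cancel₀ _ hfD.ne']
    linarith
  have hfA : ∀ D ∈ interior M.eff, f D < 0 := fun D hD => lt_of_lt_of_le (hf1 D hD) hu0
  have hfeff : ∀ D ∈ M.eff, f D ≤ 0 := by
    intro D hD
    have h1 : ∀ t : ℝ, 0 < t → f (D + t • A) < 0 := by
      intro t ht
      apply hfA
      have h2 : IsOpen ((fun x => D + t • x) '' interior M.eff) :=
        ((Homeomorph.smulOfNeZero t ht.ne').trans (Homeomorph.addLeft D)).isOpenMap _
          isOpen_interior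
      have h3 : (fun x => D + t • x) '' interior M.eff ⊆ M.eff := by
        rintro _ ⟨B, hB, rfl⟩
        exact M.eff_add _ hD _ (M.eff_smul t ht.le _ (interior_subset hB))
      exact interior_maximal h3 h2 ⟨A, hA, rfl⟩
    have hcont : Continuous fun t : ℝ => f (D + t • A) := by fun_prop
    have h2 : Tendsto (fun t : ℝ => f (D + t • A)) (𝓝[>] 0) (𝓝 (f (D + (0 : ℝ) • A))) :=
      (hcont.tendsto 0).mono_left nhdsWithin_le_nhds
    rw [zero_smul, add_zero] at h2
    exact le_of_tendsto h2 (by filter_upwards [self_mem_nhdsWithin] with t ht using (h1 t ht).le)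
  have hfne : f ≠ 0 := by
    intro h0
    have := hfA A hA
    rw [h0] at this
    simp at this
  have hnorm : 0 < ‖f‖ := norm_pos_iff.2 hfne
  refine ⟨(-‖f‖⁻¹) • f, ?_, ?_, ?_⟩
  · rw [norm_smul, norm_neg, norm_inv, norm_norm, inv_mul_cancel₀ hnorm.ne']
  · intro D hD
    have := hfeff D hD
    change 0 ≤ (-‖f‖⁻¹) * f D
    have h5 : 0 < ‖f‖⁻¹ := inv_pos.2 hnorm
    nlinarith
  · intro D hD
    have := hfB D hD
    change (-‖f‖⁻¹) * f D ≤ 0
    have h5 : 0 < ‖f‖⁻¹ := inv_pos.2 hnorm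
    nlinarith

/-- The limit of the separating linear forms. -/
theorem limit_form [FiniteDimensional ℝ V] (M : NefSystem V) {X : ℕ → M.Model}
    {R : ℕ → V →ₗ[ℝ] ℝ} (h : M.IsFlipSequence X R)
    (hdisj : ∀ j, Disjoint (interior M.eff) (Kc M X j)) :
    ∃ r : V →L[ℝ] ℝ, r ≠ 0 ∧ (∀ D ∈ M.eff, 0 ≤ r D) ∧ r M.kappa = 0 ∧
      ∀ j, ∀ D : V, (∀ i, j ≤ i → R i D ≤ 0) → r D ≤ 0 := by
  have hstep : ∀ j, ∃ r : V →L[ℝ] ℝ, ‖r‖ = 1 ∧ (∀ D ∈ M.eff, 0 ≤ r D) ∧ r M.kappa = 0 ∧
      ∀ D : V, (∀ i, j ≤ i → R i D ≤ 0) → r D ≤ 0 := by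
    intro j
    obtain ⟨r, hr1, hr2, hr3⟩ := separate M j (hdisj j)
    refine ⟨r, hr1, hr2, ?_, fun D hD => hr3 D (Kc_of_nonpos M h hD)⟩
    have h1 := hr3 _ (Kc_kappa M h j)
    have h2 := hr3 _ (Kc_neg_kappa M j (X := X))
    rw [map_neg] at h2
    linarith
  choose r hr1 hr2 hrk hr3 using hstep
  have hcomp : IsCompact (Metric.sphere (0 : V →L[ℝ] ℝ) 1) := by
    have : ProperSpace (V →L[ℝ] ℝ) := FiniteDimensional.proper ℝ _
    exact isCompact_sphere _ _
  obtain ⟨r₀, hr₀, φ, hφ, hlim⟩ := hcomp.tendsto_subseq (x := r)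
    (fun n => by rw [mem_sphere_zero_iff_norm]; exact hr1 n)
  have heval : ∀ D : V, Tendsto (fun n => r (φ n) D) atTop (𝓝 (r₀ D)) := by
    intro D
    have hc : Continuous fun g : V →L[ℝ] ℝ => g D := by fun_prop
    exact (hc.tendsto r₀).comp hlim
  refine ⟨r₀, ?_, ?_, ?_, ?_⟩
  · intro h0
    rw [mem_sphere_zero_iff_norm, h0, norm_zero] at hr₀
    exact zero_ne_one hr₀
  · intro D hD
    exact ge_of_tendsto (heval D) (Eventually.of_forall fun n => hr2 (φ n) D hD)
  · refine tendsto_nhds_unique (heval M.kappa) ?_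
    simp only [hrk]
    exact tendsto_const_nhds
  · intro j D hD
    refine le_of_tendsto (heval D) ?_
    filter_upwards [eventually_ge_atTop j] with n hn
    exact hr3 (φ n) D fun i hi => hD i (hn.trans ((hφ.id_le n).trans hi))

/-- bipolar theorem for the cones spanned by the flipping rays of the tails -/
theorem mem_closure_cone [FiniteDimensional ℝ V] {R : ℕ → V →ₗ[ℝ] ℝ} {r : V →L[ℝ] ℝ} (j : ℕ)
    (hr : ∀ D : V, (∀ i, j ≤ i → R i D ≤ 0) → r D ≤ 0) :
    r ∈ closure (Submodule.span NNReal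
        {φ : V →L[ℝ] ℝ | ∃ i, j ≤ i ∧ ∀ D, φ D = R i D} : Set (V →L[ℝ] ℝ)) := by
  set S : Set (V →L[ℝ] ℝ) := {φ | ∃ i, j ≤ i ∧ ∀ D, φ D = R i D} with hS
  set C : Set (V →L[ℝ] ℝ) := closure (Submodule.span NNReal S : Set (V →L[ℝ] ℝ)) with hC
  by_contra hrC
  have hspanconv : Convex ℝ (Submodule.span NNReal S : Set (V →L[ℝ] ℝ)) := by
    intro a ha b hb s t hs ht _
    have h1 := (Submodule.span NNReal S).smul_mem ⟨s, hs⟩ ha
    have h2 := (Submodule.span NNReal S).smul_mem ⟨t, ht⟩ hb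
    exact (Submodule.span NNReal S).add_mem h1 h2
  obtain ⟨f, u, hf1, hf2⟩ := geometric_hahn_banach_closed_point hspanconv.closure
    isClosed_closure hrC
  -- `f` is the evaluation at some `D`
  obtain ⟨D, hD⟩ : ∃ D : V, ∀ φ : V →L[ℝ] ℝ, f φ = φ D := by
    set g : Module.Dual ℝ (Module.Dual ℝ V) :=
      (f : (V →L[ℝ] ℝ) →ₗ[ℝ] ℝ).comp
        (LinearMap.toContinuousLinearMap : (V →ₗ[ℝ] ℝ) ≃ₗ[ℝ] (V →L[ℝ] ℝ)).toLinearMap with hg
    refine ⟨(Module.evalEquiv ℝ V).symm g, fun φ => ?_⟩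
    have h1 : (Module.evalEquiv ℝ V) ((Module.evalEquiv ℝ V).symm g) = g :=
      LinearEquiv.apply_symm_apply _ _
    have h2 := congrArg (fun F : Module.Dual ℝ (Module.Dual ℝ V) => F (φ : V →ₗ[ℝ] ℝ)) h1
    have h3 : f φ = g (φ : V →ₗ[ℝ] ℝ) := rfl
    rw [h3]
    exact h2.symm
  have h0C : (0 : V →L[ℝ] ℝ) ∈ C := subset_closure (Submodule.zero_mem _)
  have hu : 0 < u := by
    have := hf1 0 h0C
    rwa [map_zero] at this
  have hRD : ∀ i, j ≤ i → R i D ≤ 0 := by
    intro i hi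
    by_contra hcon
    push Not at hcon
    set φ : V →L[ℝ] ℝ := LinearMap.toContinuousLinearMap (R i) with hφ
    have hφS : φ ∈ S := ⟨i, hi, fun D => rfl⟩
    set t : ℝ := u / R i D with ht
    have htpos : 0 < t := div_pos hu hcon
    have h1 : (⟨t, htpos.le⟩ : NNReal) • φ ∈ C :=
      subset_closure ((Submodule.span NNReal S).smul_mem _ (Submodule.subset_span hφS))
    have h2 := hf1 _ h1
    rw [hD] at h2
    have h3 : ((⟨t, htpos.le⟩ : NNReal) • φ) D = t * R i D := rfl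
    rw [h3, ht, div_mul_cancel₀ _ hcon.ne'] at h2
    exact lt_irrefl _ h2
  have h4 := hr D hRD
  rw [hD] at hf2
  linarith

/-- If a big class is in `Kc X j`, then the big classes in `Kc X j` contain a nonempty open set. -/
theorem big_Kc_open (M : NefSystem V) {X : ℕ → M.Model}
    (j : ℕ) (hne : ¬ Disjoint (interior M.eff) (Kc M X j)) :
    (interior (interior M.eff ∩ Kc M X j)).Nonempty := by
  rw [Set.not_disjoint_iff] at hne
  obtain ⟨D, hD1, hD2⟩ := hne
  obtain ⟨A, hA⟩ := M.ample_nonempty (X j)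
  have hcont : Continuous fun t : ℝ => D + t • (-A) := by fun_prop
  have hnhd : {t : ℝ | D + t • (-A) ∈ interior M.eff} ∈ 𝓝 (0 : ℝ) :=
    (isOpen_interior.preimage hcont).mem_nhds (by simpa using hD1)
  obtain ⟨ε, hε, hball⟩ := Metric.mem_nhds_iff.1 hnhd
  have h1 : D + (ε / 2) • (-A) ∈ interior M.eff := by
    apply hball
    rw [Metric.mem_ball, Real.dist_eq, sub_zero, abs_of_pos (by positivity)]
    linarith
  have hε2 : (-(ε / 2)) ≠ 0 := neg_ne_zero.2 (by positivity)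
  have hopen : IsOpen ((fun x => D + (-(ε / 2)) • x) '' interior (M.nef (X j))) :=
    ((Homeomorph.smulOfNeZero (-(ε / 2)) hε2).trans (Homeomorph.addLeft D)).isOpenMap _
      isOpen_interior
  refine ⟨D + (ε / 2) • (-A), ?_⟩
  have hmem : D + (ε / 2) • (-A) ∈ (fun x => D + (-(ε / 2)) • x) '' interior (M.nef (X j)) :=
    ⟨A, hA, by simp only [neg_smul, smul_neg]⟩
  have hsub : (fun x => D + (-(ε / 2)) • x) '' interior (M.nef (X j)) ⊆ Kc M X j := by
    rintro _ ⟨x, hx, rfl⟩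
    have h2 := Kc_smul M j (by positivity : 0 ≤ ε / 2) (Kc_neg_nef M j (interior_subset hx))
    have h3 := Kc_add M j hD2 h2
    simp only [neg_smul]
    rwa [smul_neg] at h3
  refine interior_maximal (?_ : interior M.eff ∩
    ((fun x => D + (-(ε / 2)) • x) '' interior (M.nef (X j))) ⊆ _)
    (isOpen_interior.inter hopen) ⟨h1, hmem⟩
  exact inter_subset_inter_right _ hsub

/-- a set with nonempty interior spans -/
theorem span_of_interior {W : Type} [NormedAddCommGroup W] [NormedSpace ℝ W] {S : Set W}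
    (hS : (interior S).Nonempty) : Submodule.span ℝ S = ⊤ := by
  apply Submodule.eq_top_of_nonempty_interior'
  exact hS.mono (interior_mono Submodule.subset_span)

end Pool.Agent.Work.MP_89a3f8_vol
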