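import Mathlib
import Pool.Agent.Work.MP_89a3f8_vol.System
import Pool.Agent.Work.MP_89a3f8.Three

/-!
# The limit half plane of an infinite sequence of flips, Picard number three
-/

set_option autoImplicit false

namespace Pool.Agent.Work.MP_89a3f8_vol

open Set Filter Topology Pool.Agent.Work.MP_89a3f8

variable {V : Type} [NormedAddCommGroup V] [NormedSpace ℝ V]

/-- The images in the plane `V / κ` of the nef cones of the models `X k` converge to the ray
spanned by `w₀`, from the side where the linear form `q` is nonnegative. -/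
structure IsLimit (M : NefSystem V) (X : ℕ → M.Model) (p : V →ₗ[ℝ] ℝ × ℝ) (w₀ : ℝ × ℝ)
    (q : ℝ × ℝ →ₗ[ℝ] ℝ) : Prop where
  ker_eq : LinearMap.ker p = Submodule.span ℝ {M.kappa}
  surj : Function.Surjective p
  w_ne : w₀ ≠ 0
  q_ne : q ≠ 0
  q_w : q w₀ = 0
  nonneg : ∃ j0, ∀ k, j0 ≤ k → ∀ D ∈ M.nef (X k), 0 ≤ q (p D)
  lim : ∀ ε : ℝ, 0 < ε → ∃ i0, ∀ k, i0 ≤ k → ∀ D ∈ interior (M.nef (X k)), ∃ c : ℝ, 0 ≤ c ∧
    ‖p D - c • w₀‖ ≤ ε * ‖p D‖

/-- The limit exists (see `NefSystem.three`). -/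
theorem exists_limit [FiniteDimensional ℝ V] (M : NefSystem V) (h3 : Module.finrank ℝ V = 3)
    (hk : M.kappa ∉ M.eff) {X : ℕ → M.Model} {R : ℕ → V →ₗ[ℝ] ℝ} (h : M.IsFlipSequence X R) :
    ∃ p w₀ q, IsLimit M X p w₀ q := by
  have hk0 := M.kappa_ne_zero hk (X 0)
  obtain ⟨p, hker, hsurj, u, hu, hpu⟩ := M.exists_coord hk0 h3 (X 0)
  have hpk : p M.kappa = 0 := by
    rw [← LinearMap.mem_ker, hker]
    exact Submodule.mem_span_singleton_self _
  have hpcont : Continuous p := p.continuous_of_finiteDimensional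
  have hpopen : IsOpenMap p := p.isOpenMap_of_finiteDimensional hsurj
  set P : ℕ → Set (ℝ × ℝ) := fun k => p '' interior (M.nef (X k)) with hP
  have hopen : ∀ k, IsOpen (P k) := fun k => hpopen _ isOpen_interior
  have hconv : ∀ k, Convex ℝ (P k) := fun k => (M.nef_convex (X k)).interior.is_linear_image
    p.isLinear
  have hcone : ∀ k, ∀ c : ℝ, 0 < c → ∀ w ∈ P k, c • w ∈ P k := by
    rintro k c hc _ ⟨A, hA, rfl⟩
    exact ⟨c • A, M.interior_smul _ hc hA, by rw [map_smul]⟩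
  have hcons : ∀ k, (P k ∩ P (k + 1)).Nonempty := by
    intro k
    obtain ⟨hspan, hpos, hneg, hRk⟩ := h k
    set F : Set V := M.nef (X k) ∩ M.nef (X (k + 1)) with hF
    have hFconv : Convex ℝ F := (M.nef_convex _).inter (M.nef_convex _)
    have himgconv : Convex ℝ (p '' F) := hFconv.is_linear_image p.isLinear
    have h0F : (0 : V) ∈ F := ⟨M.zero_mem_nef _, M.zero_mem_nef _⟩
    have hspanimg : Submodule.span ℝ (p '' F) = ⊤ := by
      rw [Submodule.span_image, hspan, eq_top_iff]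
      intro w _
      obtain ⟨D, rfl⟩ := hsurj w
      refine ⟨D - (R k D / R k M.kappa) • M.kappa, ?_, ?_⟩
      · rw [SetLike.mem_coe, LinearMap.mem_ker, map_sub, map_smul, smul_eq_mul,
          div_mul_cancel₀ _ hRk.ne, sub_self]
      · rw [map_sub, map_smul, hpk, smul_zero, sub_zero]
    have haff : affineSpan ℝ (p '' F) = ⊤ := by
      have hne : (p '' F).Nonempty := ⟨p 0, 0, h0F, rfl⟩
      rw [AffineSubspace.affineSpan_eq_top_iff_vectorSpan_eq_top_of_nonempty ℝ (ℝ × ℝ) (ℝ × ℝ)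
        hne]
      rw [eq_top_iff, ← hspanimg, Submodule.span_le]
      intro w hw
      have h0 : (0 : ℝ × ℝ) ∈ p '' F := ⟨0, h0F, map_zero p⟩
      have := vsub_mem_vectorSpan ℝ hw h0
      simpa using this
    have hint : (interior (p '' F)).Nonempty := himgconv.interior_nonempty_iff_affineSpan_eq_top.2 haff
    obtain ⟨w, hw⟩ := hint
    have hmem : ∀ k', F ⊆ M.nef (X k') → w ∈ P k' := by
      intro k' hFk'
      obtain ⟨A, hA⟩ := M.ample_nonempty (X k')
      have hcont : Continuous fun t : ℝ => w - t • p A := by fun_prop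
      have hnhd : {t : ℝ | w - t • p A ∈ interior (p '' F)} ∈ 𝓝 (0 : ℝ) :=
        (isOpen_interior.preimage hcont).mem_nhds (by simpa using hw)
      obtain ⟨ε, hε, hball⟩ := Metric.mem_nhds_iff.1 hnhd
      have h1 : w - (ε / 2) • p A ∈ interior (p '' F) := by
        apply hball
        rw [Metric.mem_ball, Real.dist_eq, sub_zero, abs_of_pos (by positivity)]
        linarith
      obtain ⟨f, hf, hfw⟩ := interior_subset h1
      refine ⟨f + (ε / 2) • A, M.add_interior _ (hFk' hf)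
        (M.interior_smul _ (by positivity) hA), ?_⟩
      rw [map_add, map_smul, hfw, sub_add_cancel]
    exact ⟨w, hmem k inter_subset_left, hmem (k + 1) inter_subset_right⟩
  have h0 : ((1, 0) : ℝ × ℝ) ∈ P 0 := ⟨u, hu, hpu⟩
  have hLF : ∀ j, ∀ w ∈ P j, ∃ O ∈ 𝓝 w, ∃ i0, ∀ k, i0 ≤ k → ∀ w' ∈ P k, w' ∉ O := by
    rintro j _ ⟨N, hN, rfl⟩
    obtain ⟨δ, hδ, i0, hi0⟩ := M.escape hk h j hN
    refine ⟨p '' Metric.ball N δ, (hpopen _ Metric.isOpen_ball).mem_nhds
      ⟨N, Metric.mem_ball_self hδ, rfl⟩, i0, ?_⟩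
    rintro k hk' _ ⟨c, hc, rfl⟩ ⟨N', hN', hNc⟩
    have h1 : c - N' ∈ LinearMap.ker p := by
      rw [LinearMap.mem_ker, map_sub, hNc, sub_self]
    rw [hker, Submodule.mem_span_singleton] at h1
    obtain ⟨s, hs⟩ := h1
    apply hi0 k hk' N' hN' s
    rw [hs, add_sub_cancel]
    exact interior_subset hc
  obtain ⟨w₀, a, b, hw₀, hab, habw, ⟨j0, hj0⟩, hlim⟩ := planar P hopen hconv hcone hcons h0 hLF
  set q : ℝ × ℝ →ₗ[ℝ] ℝ := a • LinearMap.fst ℝ ℝ ℝ + b • LinearMap.snd ℝ ℝ ℝ with hq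
  have hqapp : ∀ w : ℝ × ℝ, q w = a * w.1 + b * w.2 := fun w => rfl
  -- a closed condition on the interior extends to the cone
  have hclos : ∀ k, ∀ D ∈ M.nef (X k), ∃ A ∈ interior (M.nef (X k)), ∀ t : ℝ, 0 < t →
      D + t • A ∈ interior (M.nef (X k)) := by
    intro k D hD
    obtain ⟨A, hA⟩ := M.ample_nonempty (X k)
    exact ⟨A, hA, fun t ht => M.add_interior _ hD (M.interior_smul _ ht hA)⟩
  refine ⟨p, w₀, q, hker, hsurj, hw₀, ?_, ?_, ⟨j0, ?_⟩, ?_⟩
  · intro hq0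
    rcases hab with ha | hb
    · have : q (1, 0) = 0 := by rw [hq0]; rfl
      rw [hqapp] at this
      simp at this
      exact ha this
    · have : q (0, 1) = 0 := by rw [hq0]; rfl
      rw [hqapp] at this
      simp at this
      exact hb this
  · rw [hqapp, habw]
  · intro k hk' D hD
    obtain ⟨A, hA, hDA⟩ := hclos k D hD
    have h1 : ∀ t : ℝ, 0 < t → 0 ≤ q (p (D + t • A)) := fun t ht =>
      hj0 k hk' _ ⟨D + t • A, hDA t ht, rfl⟩
    have hcont : Continuous fun t : ℝ => q (p (D + t • A)) := by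
      have := (q.comp p).continuous_of_finiteDimensional
      exact this.comp (by fun_prop : Continuous fun t : ℝ => D + t • A)
    have h2 : Tendsto (fun t : ℝ => q (p (D + t • A))) (𝓝[>] 0)
        (𝓝 (q (p (D + (0 : ℝ) • A)))) := (hcont.tendsto 0).mono_left nhdsWithin_le_nhds
    rw [zero_smul, add_zero] at h2
    exact ge_of_tendsto h2 (by filter_upwards [self_mem_nhdsWithin] with t ht using h1 t ht)
  · intro ε hε
    obtain ⟨i0, hi0⟩ := hlim ε hε
    exact ⟨i0, fun k hk' D hD => hi0 k hk' (p D) ⟨D, hD, rfl⟩⟩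

namespace IsLimit

variable {M : NefSystem V} {X : ℕ → M.Model} {p : V →ₗ[ℝ] ℝ × ℝ} {w₀ : ℝ × ℝ}
  {q : ℝ × ℝ →ₗ[ℝ] ℝ}

theorem p_kappa (hl : IsLimit M X p w₀ q) : p M.kappa = 0 := by
  rw [← LinearMap.mem_ker, hl.ker_eq]
  exact Submodule.mem_span_singleton_self _

/-- classes with the same image in the plane differ by a multiple of `κ` -/
theorem exists_smul (hl : IsLimit M X p w₀ q) {D D' : V} (hD : p D = p D') :
    ∃ a : ℝ, D = D' + a • M.kappa := by
  have h1 : D - D' ∈ LinearMap.ker p := by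
    rw [LinearMap.mem_ker, map_sub, hD, sub_self]
  rw [hl.ker_eq, Submodule.mem_span_singleton] at h1
  obtain ⟨a, ha⟩ := h1
  exact ⟨a, by rw [ha]; abel⟩

/-- a linear form on the plane which vanishes on `w₀` is a multiple of `q` -/
theorem form_eq (hl : IsLimit M X p w₀ q) {f : ℝ × ℝ →ₗ[ℝ] ℝ} (hf : f w₀ = 0) :
    ∃ s : ℝ, f = s • q := by
  obtain ⟨w, hw⟩ : ∃ w, q w ≠ 0 := by
    by_contra hcon
    push Not at hcon
    exact hl.q_ne (LinearMap.ext fun w => by simpa using hcon w)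
  refine ⟨f w / q w, ?_⟩
  have hli : LinearIndependent ℝ ![w₀, w] := by
    rw [LinearIndependent.pair_iff]
    intro s t hst
    have h1 : t * q w = 0 := by
      have := congrArg q hst
      rwa [map_add, map_smul, map_smul, hl.q_w, smul_zero, zero_add, map_zero, smul_eq_mul] at this
    have ht : t = 0 := (mul_eq_zero.1 h1).resolve_right hw
    refine ⟨?_, ht⟩
    rw [ht, zero_smul, add_zero] at hst
    exact (smul_eq_zero.1 hst).resolve_right hl.w_ne
  have hcard : Fintype.card (Fin 2) = Module.finrank ℝ (ℝ × ℝ) := by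
    simp
  have hb := (basisOfLinearIndependentOfCardEqFinrank hli hcard)
  have hspan := hli.span_eq_top_of_card_eq_finrank' hcard
  apply LinearMap.ext_on_range (v := ![w₀, w]) hspan
  intro i
  fin_cases i
  · simp [hf, hl.q_w]
  · simp [hw]

/-- the form of the statement of `NefSystem.three` -/
theorem three [FiniteDimensional ℝ V] (hl : IsLimit M X p w₀ q) {θ : V} (hθ : p θ = w₀) :
    ∀ ε : ℝ, 0 < ε → ∃ i0, ∀ k, i0 ≤ k → ∀ D ∈ M.nef (X k), ∃ a b : ℝ, 0 ≤ b ∧
        ‖D - (a • M.kappa + b • θ)‖ ≤ ε * ‖D‖ := by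
  have hker := hl.ker_eq
  have hsurj := hl.surj
  have hlim := hl.lim
  have hpcont : Continuous p := p.continuous_of_finiteDimensional
  obtain ⟨σ, hσ⟩ := p.exists_rightInverse_of_surjective (LinearMap.range_eq_top.2 hsurj)
  have hpσ : ∀ w, p (σ w) = w := fun w => by
    have := congrArg (fun f : (ℝ × ℝ) →ₗ[ℝ] ℝ × ℝ => f w) hσ
    exact this
  obtain ⟨s₀, hs₀⟩ := hl.exists_smul (show p (σ w₀) = p θ by rw [hpσ, hθ])
  have hclos : ∀ k, ∀ D ∈ M.nef (X k), ∃ A ∈ interior (M.nef (X k)), ∀ t : ℝ, 0 < t →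
      D + t • A ∈ interior (M.nef (X k)) := by
    intro k D hD
    obtain ⟨A, hA⟩ := M.ample_nonempty (X k)
    exact ⟨A, hA, fun t ht => M.add_interior _ hD (M.interior_smul _ ht hA)⟩
  have key : ∀ ε : ℝ, 0 < ε → ∃ i0, ∀ k, i0 ≤ k → ∀ D ∈ M.nef (X k), ∃ a b : ℝ, 0 ≤ b ∧
      ‖D - (a • M.kappa + b • σ w₀)‖ ≤ ε * ‖D‖ := by
    intro ε hε
    set pc : V →L[ℝ] ℝ × ℝ := ⟨p, hpcont⟩ with hpc
    have hpb : ∀ D, ‖p D‖ ≤ ‖pc‖ * ‖D‖ := fun D => pc.le_opNorm D
    set σc : ℝ × ℝ →L[ℝ] V := ⟨σ, σ.continuous_of_finiteDimensional⟩ with hσc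
    have hσb : ∀ w, ‖σ w‖ ≤ ‖σc‖ * ‖w‖ := fun w => σc.le_opNorm w
    set K : ℝ := (‖pc‖ + 1) * (‖σc‖ + 1) with hK
    have hKpos : 0 < K := by positivity
    obtain ⟨i0, hi0⟩ := hlim (ε / (2 * K)) (by positivity)
    -- the estimate on the interior
    have hinter : ∀ k, i0 ≤ k → ∀ D ∈ interior (M.nef (X k)), ∃ a b : ℝ, 0 ≤ b ∧
        ‖D - (a • M.kappa + b • σ w₀)‖ ≤ ε / 2 * ‖D‖ := by
      intro k hk' D hD
      obtain ⟨c, hc, hcw⟩ := hi0 k hk' D hD
      have h1 : D - σ (p D) ∈ LinearMap.ker p := by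
        rw [LinearMap.mem_ker, map_sub, hpσ, sub_self]
      rw [hker, Submodule.mem_span_singleton] at h1
      obtain ⟨a', ha'⟩ := h1
      refine ⟨a', c, hc, ?_⟩
      have h2 : D - (a' • M.kappa + c • σ w₀) = σ (p D - c • w₀) := by
        rw [ha', map_sub, map_smul]; abel
      rw [h2]
      calc ‖σ (p D - c • w₀)‖ ≤ ‖σc‖ * ‖p D - c • w₀‖ := hσb _
        _ ≤ ‖σc‖ * (ε / (2 * K) * ‖p D‖) := mul_le_mul_of_nonneg_left hcw (norm_nonneg _)
        _ ≤ ‖σc‖ * (ε / (2 * K) * (‖pc‖ * ‖D‖)) := by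
            apply mul_le_mul_of_nonneg_left _ (norm_nonneg _)
            exact mul_le_mul_of_nonneg_left (hpb D) (by positivity)
        _ ≤ (‖σc‖ + 1) * (ε / (2 * K) * ((‖pc‖ + 1) * ‖D‖)) := by
            have h3 : ε / (2 * K) * (‖pc‖ * ‖D‖) ≤ ε / (2 * K) * ((‖pc‖ + 1) * ‖D‖) := by
              apply mul_le_mul_of_nonneg_left _ (by positivity)
              apply mul_le_mul_of_nonneg_right (by linarith) (norm_nonneg _)
            exact mul_le_mul (by linarith) h3 (by positivity) (by positivity)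
        _ = ε / 2 * ‖D‖ := by
            rw [hK]
            field_simp
    refine ⟨i0, fun k hk' D hD => ?_⟩
    by_cases hD0 : D = 0
    · refine ⟨0, 0, le_rfl, ?_⟩
      rw [hD0]
      simp
    obtain ⟨A, hA, hDA⟩ := hclos k D hD
    have hDpos : 0 < ‖D‖ := norm_pos_iff.2 hD0
    set t : ℝ := ε * ‖D‖ / ((2 + ε) * (‖A‖ + 1)) with ht
    have htpos : 0 < t := by positivity
    obtain ⟨a', b', hb', hab'⟩ := hinter k hk' _ (hDA t htpos)
    refine ⟨a', b', hb', ?_⟩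
    have htA : ‖t • A‖ ≤ ε * ‖D‖ / (2 + ε) := by
      rw [norm_smul, Real.norm_eq_abs, abs_of_pos htpos]
      calc t * ‖A‖ ≤ t * (‖A‖ + 1) := mul_le_mul_of_nonneg_left (by linarith) htpos.le
        _ = ε * ‖D‖ / (2 + ε) := by
            rw [ht]
            have h4 : ‖A‖ + 1 ≠ 0 := by positivity
            have h5 : 2 + ε ≠ 0 := by positivity
            field_simp
    have h6 : D - (a' • M.kappa + b' • σ w₀) =
        (D + t • A - (a' • M.kappa + b' • σ w₀)) - t • A := by abel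
    have h7 : ‖D + t • A‖ ≤ ‖D‖ + ‖t • A‖ := norm_add_le _ _
    rw [h6]
    calc ‖(D + t • A - (a' • M.kappa + b' • σ w₀)) - t • A‖
        ≤ ‖D + t • A - (a' • M.kappa + b' • σ w₀)‖ + ‖t • A‖ := norm_sub_le _ _
      _ ≤ ε / 2 * (‖D‖ + ‖t • A‖) + ‖t • A‖ := by
          have := mul_le_mul_of_nonneg_left h7 (by positivity : 0 ≤ ε / 2)
          linarith
      _ = ε / 2 * ‖D‖ + (2 + ε) / 2 * ‖t • A‖ := by ring
      _ ≤ ε / 2 * ‖D‖ + (2 + ε) / 2 * (ε * ‖D‖ / (2 + ε)) := by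
          have := mul_le_mul_of_nonneg_left htA (by positivity : 0 ≤ (2 + ε) / 2)
          linarith
      _ = ε * ‖D‖ := by
          have h5 : 2 + ε ≠ 0 := by positivity
          field_simp
          ring
  intro ε hε
  obtain ⟨i0, hi0⟩ := key ε hε
  refine ⟨i0, fun k hk D hD => ?_⟩
  obtain ⟨a, b, hb, hab⟩ := hi0 k hk D hD
  refine ⟨a + b * s₀, b, hb, ?_⟩
  rw [hs₀] at hab
  have e : (a + b * s₀) • M.kappa + b • θ = a • M.kappa + b • (θ + s₀ • M.kappa) := by
    rw [add_smul, smul_add, smul_smul]; abel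
  rw [e]
  exact hab

end IsLimit

end Pool.Agent.Work.MP_89a3f8_vol
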