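import Mathlib
import Pool.Agent.Work.MP_89a3f8_vol.Strong
import Pool.Agent.Work.MP_89a3f8_vol.Separation

/-!
# Picard number three: finitely many classes are impossible; the limit plane supports the
pseudo-effective cone
-/

set_option autoImplicit false

namespace Pool.Agent.Work.MP_89a3f8_vol

open Set Filter Topology Pool.Agent.Work.MP_89a3f8

variable {V : Type} [NormedAddCommGroup V] [NormedSpace ℝ V]

namespace IsLimit

variable {M : NefSystem V} {X : ℕ → M.Model} {p : V →ₗ[ℝ] ℝ × ℝ} {w₀ : ℝ × ℝ}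
  {q : ℝ × ℝ →ₗ[ℝ] ℝ}

theorem pos (hl : IsLimit M X p w₀ q) :
    ∀ᶠ k in atTop, ∀ D ∈ interior (M.nef (X k)), 0 < q (p D) := by
  obtain ⟨j0, hj0⟩ := hl.nonneg
  filter_upwards [eventually_ge_atTop j0] with k hk D hD
  have hne : q.comp p ≠ 0 := by
    intro h0
    apply hl.q_ne
    apply LinearMap.ext
    intro w
    obtain ⟨D, rfl⟩ := hl.surj w
    exact congrArg (fun f : V →ₗ[ℝ] ℝ => f D) h0
  exact NefSystem.pos_of_interior (C := M.nef (X k)) hne (fun D hD => hj0 k hk D hD) hD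

/-- in the limit the classes of `nef (X k)` have image near the ray of `w₀` -/
theorem scaled (hl : IsLimit M X p w₀ q) (ε : ℝ) (hε : 0 < ε) (hε2 : ε ≤ 1 / 2) :
    ∀ᶠ k in atTop, ∀ D ∈ interior (M.nef (X k)), ∃ c : ℝ, 0 < c ∧ ‖p D‖ ≤ 2 * c * ‖w₀‖ ∧
      ‖p D - c • w₀‖ ≤ ε * ‖p D‖ := by
  obtain ⟨i0, hi0⟩ := hl.lim ε hε
  filter_upwards [eventually_ge_atTop i0, hl.pos] with k hk hpos D hD
  obtain ⟨c, hc, hcw⟩ := hi0 k hk D hD
  have hpD : 0 < ‖p D‖ := by
    rw [norm_pos_iff]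
    intro h0
    have := hpos D hD
    rw [h0, map_zero] at this
    exact lt_irrefl _ this
  have h1 : ‖p D‖ ≤ ‖p D - c • w₀‖ + ‖c • w₀‖ := by
    have := norm_add_le (p D - c • w₀) (c • w₀)
    rwa [sub_add_cancel] at this
  rw [norm_smul, Real.norm_eq_abs, abs_of_nonneg hc] at h1
  have h2 : ‖p D‖ ≤ 2 * c * ‖w₀‖ := by nlinarith
  have hcpos : 0 < c := by
    rcases hc.eq_or_lt with h | h
    · rw [← h] at h2
      simp at h2
      rw [h2, norm_zero] at hpD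
      exact absurd hpD (lt_irrefl _)
    · exact h
  exact ⟨c, hcpos, h2, hcw⟩

theorem sign_plane (hl : IsLimit M X p w₀ q) (f : ℝ × ℝ →ₗ[ℝ] ℝ) :
    (∀ᶠ k in atTop, ∀ D ∈ interior (M.nef (X k)), 0 < f (p D)) ∨
      ∀ᶠ k in atTop, ∀ D ∈ interior (M.nef (X k)), f (p D) ≤ 0 := by
  by_cases hf : f w₀ = 0
  · obtain ⟨s, rfl⟩ := hl.form_eq hf
    rcases le_or_gt s 0 with hs | hs
    · right
      filter_upwards [hl.pos] with k hk D hD
      have := hk D hD
      change s * q (p D) ≤ 0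
      exact mul_nonpos_of_nonpos_of_nonneg hs this.le
    · left
      filter_upwards [hl.pos] with k hk D hD
      have := hk D hD
      change 0 < s * q (p D)
      exact mul_pos hs this
  · set fc : ℝ × ℝ →L[ℝ] ℝ := ⟨f, f.continuous_of_finiteDimensional⟩ with hfc
    have hfb : ∀ w, |f w| ≤ (‖fc‖ + 1) * ‖w‖ := by
      intro w
      have h1 : ‖fc w‖ ≤ ‖fc‖ * ‖w‖ := fc.le_opNorm w
      have h2 : ‖fc w‖ = |f w| := rfl
      have h3 := norm_nonneg w
      rw [← h2]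
      nlinarith
    set K : ℝ := ‖fc‖ + 1 with hK
    have hKpos : 0 < K := by positivity
    have hw : 0 < ‖w₀‖ := norm_pos_iff.2 hl.w_ne
    have hfw : 0 < |f w₀| := abs_pos.2 hf
    set ε : ℝ := min (1 / 2) (|f w₀| / (4 * K * ‖w₀‖)) with hε
    have hεpos : 0 < ε := lt_min (by norm_num) (by positivity)
    have hε2 : ε * (4 * K * ‖w₀‖) ≤ |f w₀| := by
      rw [← le_div_iff₀ (by positivity)]
      exact min_le_right _ _
    have hest := hl.scaled ε hεpos (min_le_left _ _)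
    have hmain : ∀ᶠ k in atTop, ∀ D ∈ interior (M.nef (X k)), ∃ c : ℝ, 0 < c ∧
        |f (p D) - c * f w₀| ≤ c * |f w₀| / 2 := by
      filter_upwards [hest] with k hk D hD
      obtain ⟨c, hc, h1, h2⟩ := hk D hD
      refine ⟨c, hc, ?_⟩
      have h3 := hfb (p D - c • w₀)
      rw [map_sub, map_smul, smul_eq_mul] at h3
      have h4 : K * ‖p D - c • w₀‖ ≤ K * (ε * (2 * c * ‖w₀‖)) := by
        apply mul_le_mul_of_nonneg_left _ hKpos.le
        exact h2.trans (mul_le_mul_of_nonneg_left h1 hεpos.le)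
      have h5 : K * (ε * (2 * c * ‖w₀‖)) ≤ c * |f w₀| / 2 := by nlinarith
      linarith
    rcases lt_or_gt_of_ne hf with hneg | hpos
    · right
      filter_upwards [hmain] with k hk D hD
      obtain ⟨c, hc, h1⟩ := hk D hD
      rw [abs_of_neg hneg] at h1
      have h2 := (abs_le.1 h1).2
      nlinarith [mul_neg_of_pos_of_neg hc hneg]
    · left
      filter_upwards [hmain] with k hk D hD
      obtain ⟨c, hc, h1⟩ := hk D hD
      rw [abs_of_pos hpos] at h1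
      have h2 := (abs_le.1 h1).1
      nlinarith [mul_pos hc hpos]

/-- a linear form which vanishes on `κ` factors over the plane -/
theorem exists_factor (hl : IsLimit M X p w₀ q) {g : V →ₗ[ℝ] ℝ} (hg : g M.kappa = 0) :
    ∃ f : ℝ × ℝ →ₗ[ℝ] ℝ, ∀ D, g D = f (p D) := by
  obtain ⟨σ, hσ⟩ := p.exists_rightInverse_of_surjective (LinearMap.range_eq_top.2 hl.surj)
  have hpσ : ∀ w, p (σ w) = w := fun w => by
    have := congrArg (fun f : (ℝ × ℝ) →ₗ[ℝ] ℝ × ℝ => f w) hσ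
    exact this
  refine ⟨g.comp σ, fun D => ?_⟩
  obtain ⟨a, ha⟩ := hl.exists_smul (show p D = p (σ (p D)) by rw [hpσ])
  rw [LinearMap.comp_apply]
  conv_lhs => rw [ha]
  rw [map_add, map_smul, hg, smul_zero, add_zero]

theorem sign_eventually (hl : IsLimit M X p w₀ q) {g : V →ₗ[ℝ] ℝ} (hg : g M.kappa = 0) :
    (∀ᶠ k in atTop, ∀ D ∈ interior (M.nef (X k)), 0 < g D) ∨
      ∀ᶠ k in atTop, ∀ D ∈ interior (M.nef (X k)), g D ≤ 0 := by
  obtain ⟨f, hf⟩ := hl.exists_factor hg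
  simp only [hf]
  exact hl.sign_plane f

/-- **In Picard number three the classes of the flipping curves of a tail cannot be finitely
many.** -/
theorem not_finite (hl : IsLimit M X p w₀ q) {R : ℕ → V →ₗ[ℝ] ℝ} (h : M.IsFlipSequence X R)
    (j : ℕ) {Φ : Set (V →ₗ[ℝ] ℝ)} (hΦ : Φ.Finite)
    (hR : ∀ k, j ≤ k → ∃ c : ℝ, 0 < c ∧ c • R k ∈ Φ) : False := by
  set ψ : ℕ → V →ₗ[ℝ] ℝ := fun k => (-R k M.kappa)⁻¹ • R k with hψ
  set Ψ : Set (V →ₗ[ℝ] ℝ) := (fun g : V →ₗ[ℝ] ℝ => (-g M.kappa)⁻¹ • g) '' Φ with hΨ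
  have hΨfin : Ψ.Finite := hΦ.image _
  have hmem : ∀ k, j ≤ k → ψ k ∈ Ψ := by
    intro k hk
    obtain ⟨c, hc, hcΦ⟩ := hR k hk
    refine ⟨_, hcΦ, ?_⟩
    have hkn : R k M.kappa ≠ 0 := (h k).2.2.2.ne
    change (-(c * R k M.kappa))⁻¹ • (c • R k) = (-R k M.kappa)⁻¹ • R k
    rw [smul_smul]
    congr 1
    field_simp
  have hψk : ∀ k, ψ k M.kappa = -1 := by
    intro k
    have hkn : R k M.kappa ≠ 0 := (h k).2.2.2.ne
    change (-R k M.kappa)⁻¹ * R k M.kappa = -1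
    field_simp
  have key : ∀ g ∈ Ψ, ∀ g' ∈ Ψ, ∀ᶠ k in atTop, (g - g') M.kappa = 0 → ∀ l, k ≤ l →
      (∃ D ∈ interior (M.nef (X l)), 0 < (g - g') D) →
      ∀ D ∈ interior (M.nef (X k)), 0 < (g - g') D := by
    intro g _ g' _
    by_cases hg : (g - g') M.kappa = 0
    · rcases hl.sign_eventually hg with h1 | h1
      · filter_upwards [h1] with k hk _ l _ _ D hD
        exact hk D hD
      · obtain ⟨k0, hk0⟩ := eventually_atTop.1 h1
        filter_upwards [eventually_ge_atTop k0] with k hk _ l hl' hex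
        obtain ⟨D, hD, hpos⟩ := hex
        exact absurd hpos (not_lt.2 (hk0 l (hk.trans hl') D hD))
    · exact Eventually.of_forall fun k hk => absurd hk hg
  have key2 : ∀ᶠ k in atTop, ∀ g ∈ Ψ, ∀ g' ∈ Ψ, (g - g') M.kappa = 0 → ∀ l, k ≤ l →
      (∃ D ∈ interior (M.nef (X l)), 0 < (g - g') D) →
      ∀ D ∈ interior (M.nef (X k)), 0 < (g - g') D :=
    (Filter.eventually_all_finite hΨfin).2 fun g hg =>
      (Filter.eventually_all_finite hΨfin).2 fun g' hg' => key g hg g' hg'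
  obtain ⟨k0, hk0, hjk0⟩ := (key2.and (eventually_ge_atTop j)).exists
  obtain ⟨B, hB⟩ := M.ample_nonempty (X k0)
  have hstep : ∀ l, ψ (k0 + l) B < ψ (k0 + (l + 1)) B := by
    intro l
    obtain ⟨A, hA⟩ := M.ample_nonempty (X (k0 + (l + 1)))
    have e1 : 0 < ψ (k0 + (l + 1)) A := by
      have h1 : 0 < R (k0 + (l + 1)) A := NefSystem.pos_of_interior
        (M.R_ne_zero (h _)) (h (k0 + (l + 1))).2.1 hA
      have h2 : 0 < (-R (k0 + (l + 1)) M.kappa)⁻¹ := by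
        rw [inv_pos]
        have := (h (k0 + (l + 1))).2.2.2
        linarith
      exact mul_pos h2 h1
    have e2 : ψ (k0 + l) A ≤ 0 := by
      have h1 : R (k0 + l) A ≤ 0 := (h (k0 + l)).2.2.1 A (interior_subset hA)
      have h2 : 0 < (-R (k0 + l) M.kappa)⁻¹ := by
        rw [inv_pos]
        have := (h (k0 + l)).2.2.2
        linarith
      exact mul_nonpos_of_nonneg_of_nonpos h2.le h1
    have h3 := hk0 (ψ (k0 + (l + 1))) (hmem _ (by omega)) (ψ (k0 + l)) (hmem _ (by omega))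
      (by rw [LinearMap.sub_apply, hψk, hψk, sub_self]) (k0 + (l + 1)) (by omega)
      ⟨A, hA, by rw [LinearMap.sub_apply]; linarith⟩ B hB
    rw [LinearMap.sub_apply] at h3
    linarith
  have hmono : StrictMono fun l => ψ (k0 + l) B := strictMono_nat_of_lt_succ hstep
  have hinf : (Set.range fun l => ψ (k0 + l) B).Infinite :=
    Set.infinite_range_of_injective hmono.injective
  apply hinf
  refine (hΨfin.image fun g : V →ₗ[ℝ] ℝ => g B).subset ?_
  rintro _ ⟨l, rfl⟩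
  exact ⟨ψ (k0 + l), hmem _ (by omega), rfl⟩

/-- Nef classes of `X k` near `θ + a κ`, `a` bounded above. -/
theorem approx [FiniteDimensional ℝ V] (hl : IsLimit M X p w₀ q) (hk : M.kappa ∉ M.eff) {θ : V}
    (hθ : p θ = w₀) :
    ∃ a₁ : ℝ, 0 ≤ a₁ ∧ ∀ δ : ℝ, 0 < δ → δ ≤ 1 → ∀ᶠ k in atTop, ∃ D ∈ M.nef (X k), ∃ a : ℝ,
      a ≤ a₁ ∧ ‖D - θ - a • M.kappa‖ ≤ δ := by
  obtain ⟨t0, ht0, hnot⟩ := M.exists_pos_not_eff hk (‖θ‖ + 1)
  obtain ⟨σ, hσ⟩ := p.exists_rightInverse_of_surjective (LinearMap.range_eq_top.2 hl.surj)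
  have hpσ : ∀ w, p (σ w) = w := fun w => by
    have := congrArg (fun f : (ℝ × ℝ) →ₗ[ℝ] ℝ × ℝ => f w) hσ
    exact this
  set σc : ℝ × ℝ →L[ℝ] V := ⟨σ, σ.continuous_of_finiteDimensional⟩ with hσc
  set S : ℝ := ‖σc‖ + 1 with hS
  have hSpos : 0 < S := by positivity
  have hσb : ∀ w, ‖σ w‖ ≤ S * ‖w‖ := by
    intro w
    have h1 : ‖σ w‖ ≤ ‖σc‖ * ‖w‖ := σc.le_opNorm w
    have h3 := norm_nonneg w
    nlinarith
  have hw : 0 < ‖w₀‖ := norm_pos_iff.2 hl.w_ne
  refine ⟨1 / t0, by positivity, fun δ hδ hδ1 => ?_⟩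
  set ε : ℝ := min (1 / 2) (δ / (2 * S * ‖w₀‖)) with hε
  have hεpos : 0 < ε := lt_min (by norm_num) (by positivity)
  have hε2 : ε * (2 * S * ‖w₀‖) ≤ δ := by
    rw [← le_div_iff₀ (by positivity)]
    exact min_le_right _ _
  filter_upwards [hl.scaled ε hεpos (min_le_left _ _)] with k hk'
  obtain ⟨D, hD⟩ := M.ample_nonempty (X k)
  obtain ⟨c, hc, h1, h2⟩ := hk' D hD
  have hD' : c⁻¹ • D ∈ M.nef (X k) := M.nef_smul _ _ (inv_nonneg.2 hc.le) _ (interior_subset hD)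
  -- the image of `c⁻¹ • D` is near `w₀`
  have h3 : ‖p (c⁻¹ • D) - w₀‖ ≤ ε * (2 * ‖w₀‖) := by
    have e1 : p (c⁻¹ • D) - w₀ = c⁻¹ • (p D - c • w₀) := by
      rw [map_smul, smul_sub, smul_smul, inv_mul_cancel₀ hc.ne', one_smul]
    rw [e1, norm_smul, norm_inv, Real.norm_eq_abs, abs_of_pos hc, inv_mul_le_iff₀ hc]
    calc ‖p D - c • w₀‖ ≤ ε * ‖p D‖ := h2
      _ ≤ ε * (2 * c * ‖w₀‖) := mul_le_mul_of_nonneg_left h1 hεpos.le
      _ = c * (ε * (2 * ‖w₀‖)) := by ring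
  obtain ⟨a, ha⟩ := hl.exists_smul (show p (c⁻¹ • D - θ) = p (σ (p (c⁻¹ • D) - w₀)) by
    rw [hpσ, map_sub, hθ])
  have h4 : ‖c⁻¹ • D - θ - a • M.kappa‖ ≤ δ := by
    rw [ha, add_sub_cancel_right]
    calc ‖σ (p (c⁻¹ • D) - w₀)‖ ≤ S * ‖p (c⁻¹ • D) - w₀‖ := hσb _
      _ ≤ S * (ε * (2 * ‖w₀‖)) := mul_le_mul_of_nonneg_left h3 hSpos.le
      _ = ε * (2 * S * ‖w₀‖) := by ring
      _ ≤ δ := hε2
  refine ⟨c⁻¹ • D, hD', a, ?_, h4⟩
  by_contra hcon
  push Not at hcon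
  have hapos : 0 < a := lt_trans (by positivity) hcon
  set N : V := c⁻¹ • D - a • M.kappa with hN
  have hNn : ‖N‖ ≤ ‖θ‖ + 1 := by
    have e1 : N = (c⁻¹ • D - θ - a • M.kappa) + θ := by rw [hN]; abel
    rw [e1]
    have := norm_add_le (c⁻¹ • D - θ - a • M.kappa) θ
    linarith
  have h5 : a⁻¹ < t0 := by
    rw [inv_lt_comm₀ hapos ht0, ← one_div]
    exact hcon
  apply hnot a⁻¹ (inv_nonneg.2 hapos.le) h5 N hNn
  have h6 : M.kappa + a⁻¹ • N = a⁻¹ • (c⁻¹ • D) := by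
    rw [hN, smul_sub, smul_smul a⁻¹ a, inv_mul_cancel₀ hapos.ne', one_smul]
    abel
  rw [h6]
  exact M.nef_subset_eff _ (M.nef_smul _ _ (inv_nonneg.2 hapos.le) _ hD')

/-- `θ - b A` is in `Kc X j` for `b > 0` and `A` ample on `X j`. -/
theorem theta_mem [FiniteDimensional ℝ V] (hl : IsLimit M X p w₀ q) (hk : M.kappa ∉ M.eff)
    {R : ℕ → V →ₗ[ℝ] ℝ} (h : M.IsFlipSequence X R) {θ : V} (hθ : p θ = w₀) (j : ℕ) {A : V}
    (hA : A ∈ interior (M.nef (X j))) {b : ℝ} (hb : 0 < b) : θ - b • A ∈ Kc M X j := by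
  obtain ⟨a₁, ha₁, happ⟩ := hl.approx hk hθ
  obtain ⟨ρ, hρ, hball⟩ := Metric.isOpen_iff.1 isOpen_interior A hA
  have hδ : 0 < min 1 (b * ρ / 2) := lt_min one_pos (by positivity)
  obtain ⟨k₁, hk₁⟩ := eventually_atTop.1 (happ _ hδ (min_le_left _ _))
  obtain ⟨C, hC, hfin⟩ := finite_piece M h j (θ - b • A) k₁
  refine ⟨a₁ + C, by positivity, fun k hjk v => ?_⟩
  have hmono := kappa_mono M h hjk v
  have hm : 0 ≤ M.mult (X j) M.kappa v - M.mult (X k) M.kappa v := by linarith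
  rcases le_or_gt k k₁ with hle | hgt
  · have h1 := hfin k hjk hle v
    have h2 : 0 ≤ a₁ * (M.mult (X j) M.kappa v - M.mult (X k) M.kappa v) := mul_nonneg ha₁ hm
    linarith
  · obtain ⟨D, hD, a, ha, hDn⟩ := hk₁ k hgt.le
    set η : V := D - θ - a • M.kappa with hη
    have hDη : θ = D - a • M.kappa - η := by rw [hη]; abel
    -- `b A + η` is nef on `X j`
    have h1 : b • A + η ∈ M.nef (X j) := by
      have e1 : b • A + η = b • (A + b⁻¹ • η) := by
        rw [smul_add, smul_smul, mul_inv_cancel₀ hb.ne', one_smul]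
      rw [e1]
      apply M.nef_smul _ _ hb.le
      apply interior_subset
      apply hball
      rw [Metric.mem_ball, dist_eq_norm, add_sub_cancel_left, norm_smul, norm_inv,
        Real.norm_eq_abs, abs_of_pos hb, inv_mul_lt_iff₀ hb]
      have h3 : ‖η‖ ≤ b * ρ / 2 := hDn.trans (min_le_right _ _)
      have h4 : 0 < b * ρ := by positivity
      linarith
    have h2 := M.negativity (X j) (X k) _ h1 v
    have h3 := M.negativity (X k) (X j) _ hD v
    rw [map_add, map_add, map_smul, map_smul] at h2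
    simp only [Pi.add_apply, Pi.smul_apply, smul_eq_mul] at h2
    have h4 : 0 ≤ C * (M.mult (X j) M.kappa v - M.mult (X k) M.kappa v) := mul_nonneg hC hm
    have h5 : a * (M.mult (X j) M.kappa v - M.mult (X k) M.kappa v) ≤
        a₁ * (M.mult (X j) M.kappa v - M.mult (X k) M.kappa v) :=
      mul_le_mul_of_nonneg_right ha hm
    have e : ∀ Y : M.Model, M.mult Y (θ - b • A) v =
        M.mult Y D v - a * M.mult Y M.kappa v - M.mult Y η v - b * M.mult Y A v := by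
      intro Y
      rw [map_sub, map_smul]
      conv_lhs => rw [hDη]
      rw [map_sub, map_sub, map_smul]
      simp only [Pi.sub_apply, Pi.smul_apply, smul_eq_mul]
    rw [e, e]
    nlinarith

/-- **The limit plane supports the pseudo-effective cone** if no big class is in `Kc X j`. -/
theorem nonneg_eff [FiniteDimensional ℝ V] (hl : IsLimit M X p w₀ q) (hk : M.kappa ∉ M.eff)
    {R : ℕ → V →ₗ[ℝ] ℝ} (h : M.IsFlipSequence X R) (j : ℕ)
    (hdisj : Disjoint (interior M.eff) (Kc M X j)) : ∀ D ∈ M.eff, 0 ≤ q (p D) := by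
  obtain ⟨r, hr1, hr2, hr3⟩ := separate M j hdisj
  have hrk : r M.kappa = 0 := by
    have h1 := hr3 _ (Kc_kappa M h j)
    have h2 := hr3 _ (Kc_neg_kappa M j (X := X))
    rw [map_neg] at h2
    linarith
  obtain ⟨θ, hθ⟩ := hl.surj w₀
  -- `r θ ≤ 0`
  have hle : r θ ≤ 0 := by
    obtain ⟨A, hA⟩ := M.ample_nonempty (X j)
    have h1 : ∀ b : ℝ, 0 < b → r θ ≤ b * r A := by
      intro b hb
      have := hr3 _ (hl.theta_mem hk h hθ j hA hb)
      rw [map_sub, map_smul, smul_eq_mul] at this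
      linarith
    have hcont : Continuous fun b : ℝ => b * r A := by fun_prop
    have h2 : Tendsto (fun b : ℝ => b * r A) (𝓝[>] 0) (𝓝 (0 * r A)) :=
      (hcont.tendsto 0).mono_left nhdsWithin_le_nhds
    rw [zero_mul] at h2
    exact ge_of_tendsto h2 (by filter_upwards [self_mem_nhdsWithin] with b hb using h1 b hb)
  -- `0 ≤ r θ`
  have hge : 0 ≤ r θ := by
    obtain ⟨a₁, ha₁, happ⟩ := hl.approx hk hθ
    have h1 : ∀ δ : ℝ, 0 < δ → δ ≤ 1 → -δ ≤ r θ := by
      intro δ hδ hδ1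
      obtain ⟨k, D, hD, a, ha, hDn⟩ := (happ δ hδ hδ1).exists
      have h2 := hr2 D (M.nef_subset_eff _ hD)
      have h3 : r (D - θ - a • M.kappa) = r D - r θ := by
        rw [map_sub, map_sub, map_smul, hrk, smul_zero, sub_zero]
      have h4 : |r (D - θ - a • M.kappa)| ≤ δ := by
        have h5 := r.le_opNorm (D - θ - a • M.kappa)
        rw [hr1, one_mul, Real.norm_eq_abs] at h5
        exact h5.trans hDn
      rw [h3] at h4
      have := (abs_le.1 h4).2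
      linarith
    by_contra hcon
    push Not at hcon
    have h2 := h1 (min 1 (-r θ / 2)) (lt_min one_pos (by linarith)) (min_le_left _ _)
    have h3 := min_le_right (1 : ℝ) (-r θ / 2)
    linarith
  have hθ0 : r θ = 0 := le_antisymm hle hge
  obtain ⟨f, hf⟩ := hl.exists_factor (g := (r : V →ₗ[ℝ] ℝ)) hrk
  have hfw : f w₀ = 0 := by
    rw [← hθ, ← hf]
    exact hθ0
  obtain ⟨s, hs⟩ := hl.form_eq hfw
  have hrs : ∀ D, r D = s * q (p D) := by
    intro D
    have := hf D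
    rw [hs] at this
    exact this
  obtain ⟨k, hk'⟩ := hl.pos.exists
  obtain ⟨A, hA⟩ := M.ample_nonempty (X k)
  have h1 := hk' A hA
  have h2 := hr2 A (M.nef_subset_eff _ (interior_subset hA))
  rw [hrs] at h2
  have hs0 : 0 ≤ s := nonneg_of_mul_nonneg_left h2 h1
  have hsne : s ≠ 0 := by
    intro h0
    have : r = 0 := by
      ext D
      rw [hrs, h0, zero_mul]
      rfl
    rw [this, norm_zero] at hr1
    exact zero_ne_one hr1
  have hspos : 0 < s := lt_of_le_of_ne hs0 (Ne.symm hsne)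
  intro D hD
  have h3 := hr2 D hD
  rw [hrs] at h3
  exact nonneg_of_mul_nonneg_right h3 hspos

end IsLimit

end Pool.Agent.Work.MP_89a3f8_vol
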