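import Mathlib
import Pool.Agent.Work.MP_89a3f8_vol.Finite
import Pool.Agent.Work.MP_89a3f8_vol.Limit

/-!
# Local volumes against flips: the dichotomy and the case of three-dimensional spaces of classes
-/

set_option autoImplicit false

namespace Pool.Agent.Work.MP_89a3f8_vol

open Set Filter Topology Pool.Agent.Work.MP_89a3f8

variable {V : Type} [NormedAddCommGroup V] [NormedSpace ℝ V]

/-- a linear form which is nonnegative on `eff` and not zero is positive on big classes -/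
theorem form_pos (M : NefSystem V) {r : V →L[ℝ] ℝ} (hr : r ≠ 0) (h0 : ∀ D ∈ M.eff, 0 ≤ r D)
    {D : V} (hD : D ∈ interior M.eff) : 0 < r D := by
  have hne : (r : V →ₗ[ℝ] ℝ) ≠ 0 := by
    intro h
    apply hr
    ext x
    exact congrArg (fun f : V →ₗ[ℝ] ℝ => f x) h
  exact NefSystem.pos_of_interior (C := M.eff) hne h0 hD

/-- a monotone sequence with values in finitely many numbers is constant from some index on -/
theorem eventually_const {a : ℕ → ℝ} (j : ℕ) (hmono : ∀ k l, j ≤ k → k ≤ l → a k ≤ a l)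
    (hfin : (a '' Set.Ici j).Finite) : ∃ k₀, j ≤ k₀ ∧ ∀ k, k₀ ≤ k → a k = a k₀ := by
  obtain ⟨y, ⟨k₀, hk₀, rfl⟩, hy⟩ := Set.exists_max_image _ id hfin ⟨a j, j, Set.mem_Ici.2 le_rfl, rfl⟩
  refine ⟨k₀, hk₀, fun k hk => le_antisymm ?_ (hmono k₀ k hk₀ hk)⟩
  exact hy (a k) ⟨k, Set.mem_Ici.2 ((Set.mem_Ici.1 hk₀).trans hk), rfl⟩

/-- If the indices are bounded and `Δ` is rational, the flips of a tail do not change the log
discrepancies which are at most one. -/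
theorem terminal_tail (M : DiscSystem V) {X : ℕ → M.Model} {R : ℕ → V →ₗ[ℝ] ℝ}
    (h : M.IsFlipSequence X R) (hrat : ∃ m : ℕ, 0 < m ∧ (m : ℝ) • M.kappa ∈ M.weil)
    (j N : ℕ) (hN : 0 < N) (hind : ∀ k, j ≤ k → M.index (X k) ∣ N) :
    ∃ j', j ≤ j' ∧ ∀ k, j' ≤ k → ∀ v, M.ld (X j') v ≤ 1 → M.ld (X k) v = M.ld (X j') v := by
  obtain ⟨m, hm, hmk⟩ := hrat
  have hm' : (0 : ℝ) < m := by exact_mod_cast hm
  have hmono : ∀ v k l, k ≤ l → M.ld (X k) v ≤ M.ld (X l) v := by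
    intro v k l hkl
    have h1 := M.ld_sub (X k) (X l) v
    have h2 := kappa_mono M.toNefSystem h hkl v
    linarith
  have hint : ∀ v k, j ≤ k → ∃ z : ℤ, ((N * m : ℕ) : ℝ) * (M.ld (X k) v - M.ld (X j) v) = z := by
    intro v k hk
    obtain ⟨z, hz⟩ := M.mult_integral (X j) (X k) N (hind j le_rfl) (hind k hk) _ hmk v
    refine ⟨-z, ?_⟩
    rw [map_smul, map_smul] at hz
    simp only [Pi.smul_apply, smul_eq_mul] at hz
    rw [M.ld_sub (X j) (X k) v]
    push_cast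
    rw [← hz]
    ring
  set F : Set M.Val := {v ∈ M.exc | M.ld (X j) v ≤ 1} with hF
  have hFfin : F.Finite := M.ld_finite (X j)
  have hev : ∀ v ∈ F, ∀ᶠ j' in atTop, M.ld (X j') v ≤ 1 → ∀ k, j' ≤ k →
      M.ld (X k) v = M.ld (X j') v := by
    intro v _
    by_cases hb : ∀ k, j ≤ k → M.ld (X k) v ≤ 1
    · have hfin : ((fun k => M.ld (X k) v) '' Set.Ici j).Finite := by
        refine ((finite_multiples (N * m) (Nat.mul_pos hN hm) 1).image
          (fun y => y + M.ld (X j) v)).subset ?_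
        rintro _ ⟨k, hk, rfl⟩
        refine ⟨M.ld (X k) v - M.ld (X j) v, ⟨?_, hint v k hk⟩, by simp⟩
        have h1 := hb k hk
        have h2 := M.ld_pos (X j) v
        have h3 := hmono v j k hk
        rw [abs_le]
        constructor <;> linarith
      obtain ⟨k₀, hk₀, hc⟩ := eventually_const (a := fun k => M.ld (X k) v) j
        (fun k l _ hkl => hmono v k l hkl) hfin
      filter_upwards [eventually_ge_atTop k₀] with j' hj' _ k hk
      have e1 := hc k (hj'.trans hk)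
      have e2 := hc j' hj'
      exact e1.trans e2.symm
    · push Not at hb
      obtain ⟨k₀, hk₀, hgt⟩ := hb
      filter_upwards [eventually_ge_atTop k₀] with j' hj' hle
      have := hmono v k₀ j' hj'
      linarith
  obtain ⟨j', hj', hjj'⟩ := (((Filter.eventually_all_finite hFfin).2 hev).and
    (eventually_ge_atTop j)).exists
  refine ⟨j', hjj', fun k hk v hv => ?_⟩
  by_cases hexc : v ∈ M.exc
  · exact hj' v ⟨hexc, (hmono v j j' hjj').trans hv⟩ hv k hk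
  · have h1 := M.ld_sub (X j') (X k) v
    rw [M.mult_of_not_exc _ _ v hexc, M.mult_of_not_exc _ _ v hexc] at h1
    linarith

/-- **Dichotomy.** -/
theorem dichotomy [FiniteDimensional ℝ V] (M : VolSystem V) {X : ℕ → M.Model}
    {R : ℕ → V →ₗ[ℝ] ℝ} (h : M.IsFlipSequence X R) :
    (∃ r : V →L[ℝ] ℝ, r ≠ 0 ∧ (∀ D ∈ M.eff, 0 ≤ r D) ∧ r M.kappa = 0 ∧
      ∀ j, r ∈ closure (Submodule.span NNReal
        {φ : V →L[ℝ] ℝ | ∃ i, j ≤ i ∧ ∀ D, φ D = R i D} : Set (V →L[ℝ] ℝ))) ∨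
    ∃ j, (∃ ε : ℝ, 0 < ε ∧ ∀ k, j ≤ k → ε ≤ M.lvol (X k)) ∧
      (∃ N : ℕ, 0 < N ∧ ∀ k, j ≤ k → M.index (X k) ∣ N) ∧
      (∃ Φ : Set (V →ₗ[ℝ] ℝ), Φ.Finite ∧ ∀ k, j ≤ k → ∃ c : ℝ, 0 < c ∧ c • R k ∈ Φ) ∧
      ((∃ m : ℕ, 0 < m ∧ (m : ℝ) • M.kappa ∈ M.weil) →
        ∀ k, j ≤ k → ∀ v, M.ld (X j) v ≤ 1 → M.ld (X k) v = M.ld (X j) v) := by
  by_cases hdisj : ∀ j, Disjoint (interior M.eff) (Kc M.toNefSystem X j)
  · left
    obtain ⟨r, hr0, hr1, hrk, hr2⟩ := limit_form M.toNefSystem h hdisj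
    exact ⟨r, hr0, hr1, hrk, fun j => mem_closure_cone j (hr2 j)⟩
  · right
    push Not at hdisj
    obtain ⟨j, hj⟩ := hdisj
    obtain ⟨L₀, hL₀, hL₀'⟩ := Set.not_disjoint_iff.1 hj
    obtain ⟨ε, hε, hlv⟩ := lvol_tail M.toDiscSystem h hL₀ hL₀'
    obtain ⟨N, hN, hind⟩ := index_tail M.toDiscSystem h hL₀ hL₀'
    obtain ⟨Φ, hΦ, hb⟩ := finite_classes M h j (W := V) LinearMap.id M.kappa rfl M.weil_span
      (span_of_interior (big_Kc_open M.toNefSystem j hj)) hL₀ hL₀'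
    by_cases hrat : ∃ m : ℕ, 0 < m ∧ (m : ℝ) • M.kappa ∈ M.weil
    · obtain ⟨j', hjj', hj'⟩ := terminal_tail M.toDiscSystem h hrat j N hN hind
      exact ⟨j', ⟨ε, hε, fun k hk => hlv k (hjj'.trans hk)⟩,
        ⟨N, hN, fun k hk => hind k (hjj'.trans hk)⟩,
        ⟨Φ, hΦ, fun k hk => hb k (hjj'.trans hk)⟩, fun _ => hj'⟩
    · exact ⟨j, ⟨ε, hε, hlv⟩, ⟨N, hN, hind⟩, ⟨Φ, hΦ, hb⟩, fun h' => absurd h' hrat⟩

/-- There is no infinite sequence of flips if the space of classes has dimension at most two. -/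
theorem rank_two [FiniteDimensional ℝ V] (M : NefSystem V) (h2 : Module.finrank ℝ V ≤ 2)
    (hk : M.kappa ∉ M.eff) {X : ℕ → M.Model} {R : ℕ → V →ₗ[ℝ] ℝ} (h : M.IsFlipSequence X R) :
    False := by
  have hk0 := M.kappa_ne_zero hk (X 0)
  -- a class which spans modulo `κ`
  obtain ⟨v, hv⟩ : ∃ v : V, ∀ w : V, ∃ c s : ℝ, w = c • v + s • M.kappa := by
    have h1 : Module.finrank ℝ (V ⧸ Submodule.span ℝ {M.kappa}) ≤ 1 := by
      have := Submodule.finrank_quotient_add_finrank (Submodule.span ℝ {M.kappa})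
      rw [finrank_span_singleton hk0] at this
      omega
    obtain ⟨v', hv'⟩ := finrank_le_one_iff.1 h1
    obtain ⟨v, rfl⟩ := Submodule.mkQ_surjective _ v'
    refine ⟨v, fun w => ?_⟩
    obtain ⟨c, hc⟩ := hv' (Submodule.mkQ _ w)
    have h2 : w - c • v ∈ Submodule.span ℝ {M.kappa} := by
      rw [← Submodule.ker_mkQ (Submodule.span ℝ {M.kappa}), LinearMap.mem_ker, map_sub, map_smul,
        hc, sub_self]
    obtain ⟨s, hs⟩ := Submodule.mem_span_singleton.1 h2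
    exact ⟨c, s, by rw [hs]; abel⟩
  choose A hA using fun k => M.ample_nonempty (X k)
  choose c s hcs using fun k => hv (A k)
  obtain ⟨y, hy⟩ := Finite.exists_infinite_fiber fun k => SignType.sign (c k)
  have hinf : ((fun k => SignType.sign (c k)) ⁻¹' {y}).Infinite := Set.infinite_coe_iff.1 hy
  obtain ⟨j, hj⟩ := hinf.nonempty
  obtain ⟨δ, hδ, i0, hi0⟩ := M.escape hk h j (hA j)
  obtain ⟨k, hk', hik⟩ := hinf.exists_gt i0
  have hsign : SignType.sign (c k) = SignType.sign (c j) := by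
    have e1 : SignType.sign (c k) = y := hk'
    have e2 : SignType.sign (c j) = y := hj
    rw [e1, e2]
  obtain ⟨τ, hτ, hcτ⟩ : ∃ τ : ℝ, 0 < τ ∧ c k = τ * c j := by
    rcases lt_trichotomy (c j) 0 with h0 | h0 | h0
    · rw [sign_neg h0, sign_eq_neg_one_iff] at hsign
      exact ⟨c k / c j, div_pos_of_neg_of_neg hsign h0, by rw [div_mul_cancel₀ _ h0.ne]⟩
    · rw [h0, sign_zero, sign_eq_zero_iff] at hsign
      exact ⟨1, one_pos, by rw [hsign, h0, mul_zero]⟩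
    · rw [sign_pos h0, sign_eq_one_iff] at hsign
      exact ⟨c k / c j, div_pos hsign h0, by rw [div_mul_cancel₀ _ h0.ne']⟩
  apply hi0 k hik.le (A j) (by rw [dist_self]; exact hδ) (τ⁻¹ * s k - s j)
  have h3 : A j + (τ⁻¹ * s k - s j) • M.kappa = τ⁻¹ • A k := by
    conv_lhs => rw [hcs j]
    conv_rhs => rw [hcs k, hcτ]
    rw [smul_add, smul_smul, smul_smul, ← mul_assoc, inv_mul_cancel₀ hτ.ne', one_mul, sub_smul]
    abel
  rw [h3]
  exact M.nef_smul _ _ (inv_nonneg.2 hτ.le) _ (interior_subset (hA k))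

/-- **Three-dimensional spaces of classes**, the case of the whole space. -/
theorem rank_three [FiniteDimensional ℝ V] (M : NefSystem V) (h3 : Module.finrank ℝ V = 3)
    (hk : M.kappa ∉ M.eff) {X : ℕ → M.Model} {R : ℕ → V →ₗ[ℝ] ℝ} (h : M.IsFlipSequence X R)
    (hfin : ¬ Disjoint (interior M.eff) (Kc M X 0) → ∃ Φ : Set (V →ₗ[ℝ] ℝ), Φ.Finite ∧
      ∀ k, 0 ≤ k → ∃ c : ℝ, 0 < c ∧ c • R k ∈ Φ) :
    ∃ (θ : V) (r : V →ₗ[ℝ] ℝ), θ ∉ Submodule.span ℝ {M.kappa} ∧ r ≠ 0 ∧ r M.kappa = 0 ∧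
      r θ = 0 ∧ (∀ D ∈ M.eff, 0 ≤ r D) ∧
      ∀ ε : ℝ, 0 < ε → ∃ i0, ∀ k, i0 ≤ k → ∀ D ∈ M.nef (X k), ∃ a b : ℝ, 0 ≤ b ∧
        ‖D - (a • M.kappa + b • θ)‖ ≤ ε * ‖D‖ := by
  obtain ⟨p, w₀, q, hl⟩ := exists_limit M h3 hk h
  have hdisj : Disjoint (interior M.eff) (Kc M X 0) := by
    by_contra hne
    obtain ⟨Φ, hΦ, hb⟩ := hfin hne
    exact hl.not_finite h 0 hΦ hb
  obtain ⟨θ, hθ⟩ := hl.surj w₀
  refine ⟨θ, q.comp p, ?_, ?_, ?_, ?_, hl.nonneg_eff hk h 0 hdisj, hl.three hθ⟩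
  · intro hmem
    rw [← hl.ker_eq, LinearMap.mem_ker, hθ] at hmem
    exact hl.w_ne hmem
  · intro h0
    apply hl.q_ne
    apply LinearMap.ext
    intro w
    obtain ⟨D, rfl⟩ := hl.surj w
    exact congrArg (fun f : V →ₗ[ℝ] ℝ => f D) h0
  · rw [LinearMap.comp_apply, hl.p_kappa, map_zero]
  · rw [LinearMap.comp_apply, hθ, hl.q_w]

/-- a class of `P` which is interior to `eff ∩ P` is interior to `eff`, if some ample class is in
`P` -/
theorem big_of_restrict (M : NefSystem V) (P : Submodule ℝ V) {X' : M.Model} {A : V}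
    (hA : A ∈ interior (M.nef X')) (hAP : A ∈ P) {N : P}
    (hN : N ∈ interior {D : P | (D : V) ∈ M.eff}) : (N : V) ∈ interior M.eff := by
  have hcont : Continuous fun s : ℝ => N - s • (⟨A, hAP⟩ : P) := by fun_prop
  have hnhd : {s : ℝ | N - s • (⟨A, hAP⟩ : P) ∈ interior {D : P | (D : V) ∈ M.eff}} ∈
      𝓝 (0 : ℝ) := (isOpen_interior.preimage hcont).mem_nhds (by
        change N - (0 : ℝ) • (⟨A, hAP⟩ : P) ∈ interior {D : P | (D : V) ∈ M.eff}
        rw [zero_smul, sub_zero]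
        exact hN)
  obtain ⟨ε, hε, hball⟩ := Metric.mem_nhds_iff.1 hnhd
  have h1 : N - (ε / 2) • (⟨A, hAP⟩ : P) ∈ interior {D : P | (D : V) ∈ M.eff} := by
    apply hball
    rw [Metric.mem_ball, Real.dist_eq, sub_zero, abs_of_pos (by positivity)]
    linarith
  have h1' := interior_subset h1
  have h2 : (N : V) - (ε / 2) • A ∈ M.eff := h1'
  have h3 : IsOpen ((fun x => ((N : V) - (ε / 2) • A) + (ε / 2) • x) ''
      interior (M.nef X')) :=
    ((Homeomorph.smulOfNeZero (ε / 2) (by positivity : (ε / 2) ≠ 0)).trans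
      (Homeomorph.addLeft ((N : V) - (ε / 2) • A))).isOpenMap _ isOpen_interior
  have h4 : (fun x => ((N : V) - (ε / 2) • A) + (ε / 2) • x) '' interior (M.nef X') ⊆
      M.eff := by
    rintro _ ⟨x, hx, rfl⟩
    exact M.eff_add _ h2 _ (M.eff_smul _ (by positivity) _
      (M.nef_subset_eff _ (interior_subset hx)))
  exact interior_maximal h4 h3 ⟨A, hA, by simp⟩

/-- **Flips directed by a three-dimensional space of classes.** -/
theorem directed [FiniteDimensional ℝ V] (M : VolSystem V) (hk : M.kappa ∉ M.eff)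
    {X : ℕ → M.Model} {R : ℕ → V →ₗ[ℝ] ℝ} (h : M.IsFlipSequence X R)
    (P : Submodule ℝ V) (h3 : Module.finrank ℝ P = 3) (hP : M.kappa ∈ P)
    (hweil : Submodule.span ℝ ((M.weil : Set V) ∩ P) = P)
    (hample : ∀ k, (interior (M.nef (X k)) ∩ (P : Set V)).Nonempty)
    (hdir : ∀ k, Submodule.span ℝ (M.nef (X k) ∩ M.nef (X (k + 1)) ∩ (P : Set V)) =
      LinearMap.ker (R k) ⊓ P) :
    ∃ (θ : V) (r : V →ₗ[ℝ] ℝ), θ ∈ P ∧ θ ∉ Submodule.span ℝ {M.kappa} ∧ (∃ D ∈ P, r D ≠ 0) ∧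
      r M.kappa = 0 ∧ r θ = 0 ∧ (∀ D ∈ M.eff, D ∈ P → 0 ≤ r D) ∧
      ∀ ε : ℝ, 0 < ε → ∃ i0, ∀ k, i0 ≤ k → ∀ D ∈ M.nef (X k), D ∈ P → ∃ a b : ℝ, 0 ≤ b ∧
        ‖D - (a • M.kappa + b • θ)‖ ≤ ε * ‖D‖ := by
  set M' := M.toNefSystem.restrict P hP with hM'
  set X' : ℕ → M'.Model := fun k => ⟨X k, hample k⟩ with hX'
  set R' : ℕ → P →ₗ[ℝ] ℝ := fun k => (R k).comp P.subtype with hR'
  have hseq : M'.IsFlipSequence X' R' := by
    intro k
    obtain ⟨h1, h2, h4, h5⟩ := h k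
    refine ⟨?_, fun D hD => h2 _ hD, fun D hD => h4 _ hD, h5⟩
    apply le_antisymm
    · rw [Submodule.span_le]
      rintro D ⟨hD1, hD2⟩
      rw [SetLike.mem_coe, LinearMap.mem_ker]
      exact le_antisymm (h4 _ hD2) (h2 _ hD1)
    · intro D hD
      have h6 : (D : V) ∈ LinearMap.ker (R k) ⊓ P := ⟨hD, D.2⟩
      rw [← hdir k] at h6
      have h7 : Submodule.span ℝ (M.nef (X k) ∩ M.nef (X (k + 1)) ∩ (P : Set V)) ≤
          Submodule.map P.subtype
            (Submodule.span ℝ (M'.nef (X' k) ∩ M'.nef (X' (k + 1)))) := by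
        rw [Submodule.span_le]
        rintro y ⟨⟨hy1, hy2⟩, hyP⟩
        exact ⟨⟨y, hyP⟩, Submodule.subset_span ⟨hy1, hy2⟩, rfl⟩
      obtain ⟨D', hD', hDD'⟩ := h7 h6
      have : D' = D := Subtype.ext hDD'
      rwa [← this]
  have hk' : M'.kappa ∉ M'.eff := hk
  obtain ⟨A, hA, hAP⟩ := hample 0
  have hfin : ¬ Disjoint (interior M'.eff) (Kc M' X' 0) → ∃ Φ : Set (P →ₗ[ℝ] ℝ), Φ.Finite ∧
      ∀ k, 0 ≤ k → ∃ c : ℝ, 0 < c ∧ c • R' k ∈ Φ := by
    intro hne
    have hbig : ∀ N : P, N ∈ interior M'.eff → (N : V) ∈ interior M.eff := fun N hN =>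
      big_of_restrict M.toNefSystem P hA hAP hN
    have hspan1 : Submodule.span ℝ (interior M'.eff ∩ Kc M' X' 0) = ⊤ :=
      span_of_interior (big_Kc_open M' 0 hne)
    have hspan2 : Submodule.span ℝ {w : P | P.subtype w ∈ interior M.eff ∧
        P.subtype w ∈ Kc M.toNefSystem X 0} = ⊤ := by
      rw [eq_top_iff, ← hspan1]
      apply Submodule.span_mono
      rintro N ⟨hN1, hN2⟩
      exact ⟨hbig N hN1, hN2⟩
    have hweil' : Submodule.span ℝ {w : P | P.subtype w ∈ M.weil} = ⊤ := by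
      rw [eq_top_iff]
      intro w _
      have h6 : (w : V) ∈ Submodule.span ℝ ((M.weil : Set V) ∩ P) := by
        rw [hweil]; exact w.2
      have h7 : Submodule.span ℝ ((M.weil : Set V) ∩ P) ≤ Submodule.map P.subtype
          (Submodule.span ℝ {w : P | P.subtype w ∈ M.weil}) := by
        rw [Submodule.span_le]
        rintro y ⟨hy1, hyP⟩
        exact ⟨⟨y, hyP⟩, Submodule.subset_span hy1, rfl⟩
      obtain ⟨w', hw', hww'⟩ := h7 h6
      have : w' = w := Subtype.ext hww'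
      rwa [← this]
    obtain ⟨L₀, hL₀, hL₀'⟩ := Set.not_disjoint_iff.1 hne
    exact finite_classes M h 0 P.subtype ⟨M.kappa, hP⟩ rfl hweil' hspan2 (hbig L₀ hL₀) hL₀'
  obtain ⟨θ, r, hθ, hr, hrk, hrθ, hre, hlim⟩ := rank_three M' h3 hk' hseq hfin
  obtain ⟨r', hr'⟩ := r.exists_extend
  have hr'app : ∀ D : P, r' D = r D := fun D => by
    rw [← hr']; rfl
  refine ⟨θ, r', θ.2, ?_, ?_, ?_, ?_, ?_, ?_⟩
  · intro hmem
    apply hθ
    rw [Submodule.mem_span_singleton] at hmem ⊢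
    obtain ⟨c, hc⟩ := hmem
    exact ⟨c, Subtype.ext hc⟩
  · by_contra hcon
    push Not at hcon
    apply hr
    ext D
    have := hcon D D.2
    rw [hr'app] at this
    rw [this]; rfl
  · have := hr'app M'.kappa
    rw [hrk] at this
    exact this
  · rw [hr'app, hrθ]
  · intro D hD hDP
    have := hre ⟨D, hDP⟩ hD
    rw [← hr'app] at this
    exact this
  · intro ε hε
    obtain ⟨i0, hi0⟩ := hlim ε hε
    refine ⟨i0, fun k hk'' D hD hDP => ?_⟩
    obtain ⟨a, b, hb, hab⟩ := hi0 k hk'' ⟨D, hDP⟩ hD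
    exact ⟨a, b, hb, hab⟩

/-- If `-(K + Δ)` is big, no infinite sequence is directed by a three-dimensional space. -/
theorem directed_anti_big [FiniteDimensional ℝ V] (M : VolSystem V) (hk : M.kappa ∉ M.eff)
    (hbig : -M.kappa ∈ interior M.eff)
    {X : ℕ → M.Model} {R : ℕ → V →ₗ[ℝ] ℝ} (h : M.IsFlipSequence X R)
    (P : Submodule ℝ V) (h3 : Module.finrank ℝ P = 3) (hP : M.kappa ∈ P)
    (hweil : Submodule.span ℝ ((M.weil : Set V) ∩ P) = P)
    (hample : ∀ k, (interior (M.nef (X k)) ∩ (P : Set V)).Nonempty)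
    (hdir : ∀ k, Submodule.span ℝ (M.nef (X k) ∩ M.nef (X (k + 1)) ∩ (P : Set V)) =
      LinearMap.ker (R k) ⊓ P) : False := by
  obtain ⟨θ, r, -, -, ⟨D, hDP, hD⟩, hrk, -, hre, -⟩ :=
    directed M hk h P h3 hP hweil hample hdir
  obtain ⟨D', hD'P, hD'⟩ : ∃ D' ∈ P, r D' < 0 := by
    rcases lt_or_gt_of_ne hD with h0 | h0
    · exact ⟨D, hDP, h0⟩
    · exact ⟨-D, P.neg_mem hDP, by rw [map_neg]; linarith⟩
  have hcont : Continuous fun t : ℝ => -M.kappa + t • D' := by fun_prop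
  have hnhd : {t : ℝ | -M.kappa + t • D' ∈ interior M.eff} ∈ 𝓝 (0 : ℝ) :=
    (isOpen_interior.preimage hcont).mem_nhds (by simpa using hbig)
  obtain ⟨ε, hε, hball⟩ := Metric.mem_nhds_iff.1 hnhd
  have h1 : -M.kappa + (ε / 2) • D' ∈ interior M.eff := by
    apply hball
    rw [Metric.mem_ball, Real.dist_eq, sub_zero, abs_of_pos (by positivity)]
    linarith
  have h2 := hre _ (interior_subset h1)
    (P.add_mem (P.neg_mem hP) (P.smul_mem _ hD'P))
  rw [map_add, map_neg, hrk, neg_zero, zero_add, map_smul, smul_eq_mul] at h2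
  have h4 : (ε / 2) * r D' < 0 := mul_neg_of_pos_of_neg (by positivity) hD'
  linarith

/-- **Termination.** If `K + Δ` is not pseudo-effective, `-(K + Δ)` is big and the relative Picard
number is at most three, then every sequence of flips is finite. -/
theorem anti_big_rank_three [FiniteDimensional ℝ V] (M : VolSystem V) (hk : M.kappa ∉ M.eff)
    (hbig : -M.kappa ∈ interior M.eff) (h3 : Module.finrank ℝ V ≤ 3)
    {X : ℕ → M.Model} {R : ℕ → V →ₗ[ℝ] ℝ} (h : M.IsFlipSequence X R) : False := by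
  rcases Nat.lt_or_ge (Module.finrank ℝ V) 3 with hlt | hge
  · exact rank_two M.toNefSystem (Nat.lt_succ_iff.1 hlt) hk h
  · refine directed_anti_big M hk hbig h ⊤ ?_ Submodule.mem_top ?_ ?_ ?_
    · rw [finrank_top]
      exact le_antisymm h3 hge
    · rw [Submodule.top_coe, inter_univ]
      exact M.weil_span
    · intro k
      obtain ⟨A, hA⟩ := M.ample_nonempty (X k)
      exact ⟨A, hA, Submodule.mem_top⟩
    · intro k
      rw [inf_top_eq, Submodule.top_coe, inter_univ]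
      exact (h k).1

end Pool.Agent.Work.MP_89a3f8_vol
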